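import Mathlib

/-! # Bases of a finitely generated group of real numbers (IET, section 4)

Every finitely generated group of real numbers is ultrasimplicial: a positive basis can be refined
so that a given positive element becomes the sum of a word in the new basis. -/

set_option autoImplicit false
set_option linter.unusedSectionVars false

namespace Pool.Agent.IEF

variable {K : Type} [Field K] [LinearOrder K] [IsStrictOrderedRing K]

/-- `b'` is a positive basis of the group generated by `b`, and each `b a` is the sum of the
word `s a` in `b'`. -/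
structure Ref {ι : Type} (b : ι → K) (s : ι → List ι) (b' : ι → K) : Prop where
  pos : ∀ a, 0 < b' a
  ind : LinearIndependent ℤ b'
  span : Submodule.span ℤ (Set.range b') = Submodule.span ℤ (Set.range b)
  sum : ∀ a, ((s a).map b').sum = b a

theorem sum_flatMap {ι κ : Type} (w : List κ) (s : κ → List ι) (b' : ι → K) (b : κ → K)
    (h : ∀ a, ((s a).map b').sum = b a) : ((w.flatMap s).map b').sum = (w.map b).sum := by
  induction w with
  | nil => rfl
  | cons a w ih =>
    rw [List.flatMap_cons, List.map_append, List.sum_append, ih, List.map_cons, List.sum_cons, h]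

theorem Ref.refl {ι : Type} {b : ι → K} (hpos : ∀ a, 0 < b a) (hind : LinearIndependent ℤ b) :
    Ref b (fun a => [a]) b :=
  ⟨hpos, hind, rfl, fun a => by simp⟩

theorem Ref.trans {ι : Type} {b b' b'' : ι → K} {s s' : ι → List ι} (h : Ref b s b')
    (h' : Ref b' s' b'') : Ref b (fun a => (s a).flatMap s') b'' :=
  ⟨h'.pos, h'.ind, h'.span.trans h.span, fun a => by
    rw [sum_flatMap (s a) s' b'' b' h'.sum, h.sum]⟩

section Step

variable {ι : Type} [Fintype ι] [DecidableEq ι]

/-- The elementary step: `b q` is replaced by `b q - b p`. -/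
theorem ref_step {b : ι → K} (hpos : ∀ a, 0 < b a) (hind : LinearIndependent ℤ b) {p q : ι}
    (hpq : p ≠ q) (hlt : b p < b q) :
    Ref b (fun a => if a = q then [q, p] else [a]) (Function.update b q (b q - b p)) := by
  refine ⟨fun a => ?_, ?_, ?_, fun a => ?_⟩
  · by_cases h : a = q
    · subst h
      rw [Function.update_self]
      linarith
    · rw [Function.update_of_ne h]
      exact hpos a
  · rw [Fintype.linearIndependent_iff] at hind ⊢
    intro g hg
    -- the coefficients with respect to `b`
    have h1 : ∑ a, (g a - if a = p then g q else 0) • b a = 0 := by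
      have h2 : ∑ a, g a • Function.update b q (b q - b p) a
          = ∑ a, (g a • b a - if a = q then g q • b p else 0) := by
        refine Finset.sum_congr rfl fun a _ => ?_
        by_cases h : a = q
        · subst h
          rw [Function.update_self, if_pos rfl, smul_sub]
        · rw [Function.update_of_ne h, if_neg h, sub_zero]
      rw [h2, Finset.sum_sub_distrib, Finset.sum_ite_eq' Finset.univ q (fun _ => g q • b p),
        if_pos (Finset.mem_univ _)] at hg
      have h3 : ∑ a, (g a - if a = p then g q else 0) • b a
          = ∑ a, (g a • b a - if a = p then g q • b a else 0) := by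
        refine Finset.sum_congr rfl fun a _ => ?_
        by_cases h : a = p
        · rw [if_pos h, if_pos h, sub_smul]
        · rw [if_neg h, if_neg h, sub_zero, sub_zero]
      rw [h3, Finset.sum_sub_distrib, Finset.sum_ite_eq' Finset.univ p (fun a => g q • b a),
        if_pos (Finset.mem_univ _)]
      exact hg
    have h4 := hind _ h1
    have hq : g q = 0 := by
      have := h4 q
      rwa [if_neg (Ne.symm hpq), sub_zero] at this
    intro a
    have := h4 a
    rw [hq] at this
    simpa using this
  · apply le_antisymm
    · rw [Submodule.span_le]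
      rintro _ ⟨a, rfl⟩
      by_cases h : a = q
      · subst h
        rw [Function.update_self]
        exact Submodule.sub_mem _ (Submodule.subset_span ⟨_, rfl⟩)
          (Submodule.subset_span ⟨_, rfl⟩)
      · rw [Function.update_of_ne h]
        exact Submodule.subset_span ⟨_, rfl⟩
    · rw [Submodule.span_le]
      rintro _ ⟨a, rfl⟩
      by_cases h : a = q
      · subst h
        have h1 : b a = Function.update b a (b a - b p) a + Function.update b a (b a - b p) p := by
          rw [Function.update_self, Function.update_of_ne hpq]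
          ring
        have h2 : Function.update b a (b a - b p) a + Function.update b a (b a - b p) p
            ∈ Submodule.span ℤ (Set.range (Function.update b a (b a - b p))) :=
          Submodule.add_mem _ (Submodule.subset_span ⟨a, rfl⟩) (Submodule.subset_span ⟨p, rfl⟩)
        rw [← h1] at h2
        exact h2
      · exact Submodule.subset_span ⟨a, Function.update_of_ne h _ _⟩
  · by_cases h : a = q
    · subst h
      simp only [if_true, List.map_cons, List.map_nil, List.sum_cons, List.sum_nil]
      rw [Function.update_self, Function.update_of_ne hpq]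
      ring
    · simp only [if_neg h, List.map_cons, List.map_nil, List.sum_cons, List.sum_nil]
      rw [Function.update_of_ne h]
      ring

/-- A word with given natural numbers of letters. -/
theorem exists_word (b : ι → K) (c : ι → ℤ) (hc : ∀ a, 0 ≤ c a) :
    ∃ w : List ι, (w.map b).sum = ∑ a, (c a : K) * b a := by
  have h : ∀ S : Finset ι, ∃ w : List ι, (w.map b).sum = ∑ a ∈ S, (c a : K) * b a := by
    intro S
    induction S using Finset.induction_on with
    | empty => exact ⟨[], by simp⟩
    | insert a S ha ih =>
      obtain ⟨w, hw⟩ := ih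
      refine ⟨List.replicate (c a).toNat a ++ w, ?_⟩
      rw [List.map_append, List.sum_append, hw, Finset.sum_insert ha, List.map_replicate,
        List.sum_replicate, nsmul_eq_mul]
      congr 2
      have h1 : (((c a).toNat : ℤ) : K) = (c a : K) := by rw [Int.toNat_of_nonneg (hc a)]
      rw [← h1, Int.cast_natCast]
  exact h Finset.univ

theorem exists_ref_aux (n : ℕ) : ∀ (b : ι → K) (c : ι → ℤ) (lo hi : ℤ), (∀ a, 0 < b a) →
    LinearIndependent ℤ b → 0 < ∑ a, (c a : K) * b a → (∀ a, lo ≤ c a) → (∀ a, c a ≤ hi) →
    (hi - lo).toNat * (Fintype.card ι + 1)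
      + (Finset.univ.filter (fun a => c a = lo ∨ c a = hi)).card ≤ n →
    ∃ (s : ι → List ι) (b' : ι → K) (w : List ι), Ref b s b' ∧
      (w.map b').sum = ∑ a, (c a : K) * b a := by
  induction n with
  | zero =>
    intro b c lo hi hpos hind hf hlo hhi hn
    exfalso
    have h1 : ∀ a, c a = lo := by
      intro a
      have h2 : (hi - lo).toNat = 0 := by
        by_contra h3
        have h4 : 0 < (hi - lo).toNat * (Fintype.card ι + 1) :=
          Nat.mul_pos (Nat.pos_of_ne_zero h3) (Nat.succ_pos _)
        omega
      have := hlo a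
      have := hhi a
      omega
    have h2 : (Finset.univ.filter (fun a => c a = lo ∨ c a = hi)).card = 0 := by omega
    rw [Finset.card_eq_zero, Finset.filter_eq_empty_iff] at h2
    have h3 : ∀ a : ι, False := fun a => h2 (Finset.mem_univ a) (Or.inl (h1 a))
    have h4 : ∑ a, (c a : K) * b a = 0 := Finset.sum_eq_zero fun a _ => (h3 a).elim
    linarith
  | succ n ih =>
    intro b c lo hi hpos hind hf hlo hhi hn
    by_cases hneg : ∀ a, 0 ≤ c a
    · obtain ⟨w, hw⟩ := exists_word b c hneg
      exact ⟨_, b, w, Ref.refl hpos hind, hw⟩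
    push Not at hneg
    obtain ⟨a0, ha0⟩ := hneg
    have hcard : (Finset.univ.filter (fun a => c a = lo ∨ c a = hi)).card ≤ Fintype.card ι := by
      rw [← Finset.card_univ]
      exact Finset.card_le_card (Finset.filter_subset _ _)
    -- some coefficient is positive
    have hpos' : ∃ a, 0 < c a := by
      by_contra hcon
      push Not at hcon
      have : ∑ a, (c a : K) * b a ≤ 0 := by
        refine Finset.sum_nonpos fun a _ => ?_
        have h1 : (c a : K) ≤ 0 := by exact_mod_cast hcon a
        exact mul_nonpos_of_nonpos_of_nonneg h1 (hpos a).le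
      linarith
    obtain ⟨a1, ha1⟩ := hpos'
    have hlohi : lo < hi := by
      have := hlo a0
      have := hhi a1
      omega
    by_cases hp : ∃ p, c p = lo
    swap
    · push Not at hp
      refine ih b c (lo + 1) hi hpos hind hf (fun a => ?_) hhi ?_
      · have := hlo a
        have := hp a
        omega
      · have h1 : (hi - lo).toNat = (hi - (lo + 1)).toNat + 1 := by omega
        have h2 : (Finset.univ.filter (fun a => c a = lo + 1 ∨ c a = hi)).card
            ≤ Fintype.card ι := by
          rw [← Finset.card_univ]
          exact Finset.card_le_card (Finset.filter_subset _ _)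
        rw [h1, Nat.add_mul, one_mul] at hn
        omega
    by_cases hq : ∃ q, c q = hi
    swap
    · push Not at hq
      refine ih b c lo (hi - 1) hpos hind hf hlo (fun a => ?_) ?_
      · have := hhi a
        have := hq a
        omega
      · have h1 : (hi - lo).toNat = (hi - 1 - lo).toNat + 1 := by omega
        have h2 : (Finset.univ.filter (fun a => c a = lo ∨ c a = hi - 1)).card
            ≤ Fintype.card ι := by
          rw [← Finset.card_univ]
          exact Finset.card_le_card (Finset.filter_subset _ _)
        rw [h1, Nat.add_mul, one_mul] at hn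
        omega
    obtain ⟨p, hp⟩ := hp
    obtain ⟨q, hq⟩ := hq
    have hlo0 : lo < 0 := lt_of_le_of_lt (hlo a0) ha0
    have hhi0 : 0 < hi := lt_of_lt_of_le ha1 (hhi a1)
    have hpq : p ≠ q := by
      rintro rfl
      omega
    -- the change of one coefficient
    have key : ∀ r : ι, (r = p ∨ r = q) →
        (Finset.univ.filter (fun a => Function.update c r (c p + c q) a = lo ∨
          Function.update c r (c p + c q) a = hi)).card
        < (Finset.univ.filter (fun a => c a = lo ∨ c a = hi)).card := by
      intro r hr
      apply Finset.card_lt_card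
      rw [Finset.ssubset_iff_of_subset]
      · refine ⟨r, ?_, ?_⟩
        · rw [Finset.mem_filter]
          rcases hr with rfl | rfl
          · exact ⟨Finset.mem_univ _, Or.inl hp⟩
          · exact ⟨Finset.mem_univ _, Or.inr hq⟩
        · rw [Finset.mem_filter, Function.update_self]
          rintro ⟨-, h1⟩
          omega
      · intro a ha
        rw [Finset.mem_filter] at ha ⊢
        refine ⟨Finset.mem_univ _, ?_⟩
        by_cases h : a = r
        · subst h
          have := ha.2
          rw [Function.update_self] at this
          omega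
        · have := ha.2
          rwa [Function.update_of_ne h] at this
    have hbd : ∀ r a, lo ≤ Function.update c r (c p + c q) a ∧
        Function.update c r (c p + c q) a ≤ hi := by
      intro r a
      by_cases h : a = r
      · subst h
        rw [Function.update_self]
        omega
      · rw [Function.update_of_ne h]
        exact ⟨hlo a, hhi a⟩
    have hne : b p ≠ b q := by
      intro h
      exact hpq (hind.injective h)
    rcases lt_or_gt_of_ne hne with hlt | hlt
    · -- `b p < b q`
      have hR := ref_step hpos hind hpq hlt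
      have hsum : ∑ a, (Function.update c p (c p + c q) a : K)
          * Function.update b q (b q - b p) a = ∑ a, (c a : K) * b a := by
        have h1 : ∀ a, (Function.update c p (c p + c q) a : K)
            * Function.update b q (b q - b p) a
            = (c a : K) * b a + ((if a = p then (c q : K) * b p else 0)
              - (if a = q then (c q : K) * b p else 0)) := by
          intro a
          by_cases h : a = p
          · subst h
            rw [Function.update_self, Function.update_of_ne hpq, if_pos rfl, if_neg hpq]
            push_cast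
            ring
          · by_cases h' : a = q
            · subst h'
              rw [Function.update_self, Function.update_of_ne h, if_neg h, if_pos rfl]
              ring
            · rw [Function.update_of_ne h, Function.update_of_ne h', if_neg h, if_neg h']
              ring
        rw [Finset.sum_congr rfl fun a _ => h1 a, Finset.sum_add_distrib,
          Finset.sum_sub_distrib, Finset.sum_ite_eq' Finset.univ p (fun _ => (c q : K) * b p),
          Finset.sum_ite_eq' Finset.univ q (fun _ => (c q : K) * b p),
          if_pos (Finset.mem_univ _), if_pos (Finset.mem_univ _)]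
        ring
      obtain ⟨s, b', w, h1, h2⟩ := ih _ (Function.update c p (c p + c q)) lo hi hR.pos hR.ind
        (by rw [hsum]; exact hf) (fun a => (hbd p a).1) (fun a => (hbd p a).2)
        (by have := key p (Or.inl rfl); omega)
      exact ⟨_, b', w, hR.trans h1, by rw [h2, hsum]⟩
    · -- `b q < b p`
      have hR := ref_step hpos hind hpq.symm hlt
      have hsum : ∑ a, (Function.update c q (c p + c q) a : K)
          * Function.update b p (b p - b q) a = ∑ a, (c a : K) * b a := by
        have h1 : ∀ a, (Function.update c q (c p + c q) a : K)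
            * Function.update b p (b p - b q) a
            = (c a : K) * b a + ((if a = q then (c p : K) * b q else 0)
              - (if a = p then (c p : K) * b q else 0)) := by
          intro a
          by_cases h : a = q
          · subst h
            rw [Function.update_self, Function.update_of_ne hpq.symm, if_pos rfl,
              if_neg hpq.symm]
            push_cast
            ring
          · by_cases h' : a = p
            · subst h'
              rw [Function.update_self, Function.update_of_ne h, if_neg h, if_pos rfl]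
              ring
            · rw [Function.update_of_ne h, Function.update_of_ne h', if_neg h, if_neg h']
              ring
        rw [Finset.sum_congr rfl fun a _ => h1 a, Finset.sum_add_distrib,
          Finset.sum_sub_distrib, Finset.sum_ite_eq' Finset.univ q (fun _ => (c p : K) * b q),
          Finset.sum_ite_eq' Finset.univ p (fun _ => (c p : K) * b q),
          if_pos (Finset.mem_univ _), if_pos (Finset.mem_univ _)]
        ring
      obtain ⟨s, b', w, h1, h2⟩ := ih _ (Function.update c q (c p + c q)) lo hi hR.pos hR.ind
        (by rw [hsum]; exact hf) (fun a => (hbd q a).1) (fun a => (hbd q a).2)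
        (by have := key q (Or.inr rfl); omega)
      exact ⟨_, b', w, hR.trans h1, by rw [h2, hsum]⟩

/-- **Refinement of a basis** (Elliott: totally ordered groups are ultrasimplicial). -/
theorem exists_ref {b : ι → K} (hpos : ∀ a, 0 < b a) (hind : LinearIndependent ℤ b) {f : K}
    (hf : f ∈ Submodule.span ℤ (Set.range b)) (hf0 : 0 < f) :
    ∃ (s : ι → List ι) (b' : ι → K) (w : List ι), Ref b s b' ∧ (w.map b').sum = f := by
  obtain ⟨c, hc⟩ := (Submodule.mem_span_range_iff_exists_fun ℤ).1 hf
  have hc' : ∑ a, (c a : K) * b a = f := by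
    rw [← hc]
    exact Finset.sum_congr rfl fun a _ => (zsmul_eq_mul _ _).symm
  have hne : (Finset.univ : Finset ι).Nonempty := by
    by_contra h
    rw [Finset.not_nonempty_iff_eq_empty] at h
    rw [h, Finset.sum_empty] at hc'
    linarith
  obtain ⟨s, b', w, h1, h2⟩ := exists_ref_aux _ b c (Finset.univ.inf' hne c)
    (Finset.univ.sup' hne c) hpos hind (by rw [hc']; exact hf0)
    (fun a => Finset.inf'_le _ (Finset.mem_univ a))
    (fun a => Finset.le_sup' _ (Finset.mem_univ a)) le_rfl
  exact ⟨s, b', w, h1, by rw [h2, hc']⟩

end Step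

/-- The words from level `k` to level `k + n`. -/
def sub {ι : Type} (s : ℕ → ι → List ι) (k : ℕ) : ℕ → ι → List ι
  | 0, a => [a]
  | n + 1, a => (sub s k n a).flatMap (s (k + n))

theorem sub_zero {ι : Type} (s : ℕ → ι → List ι) (k : ℕ) (a : ι) : sub s k 0 a = [a] := rfl

theorem sub_succ {ι : Type} (s : ℕ → ι → List ι) (k n : ℕ) (a : ι) :
    sub s k (n + 1) a = (sub s k n a).flatMap (s (k + n)) := rfl

theorem sub_add {ι : Type} (s : ℕ → ι → List ι) (k n m : ℕ) (a : ι) :
    sub s k (n + m) a = (sub s k n a).flatMap (sub s (k + n) m) := by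
  induction m with
  | zero =>
    have h : sub s (k + n) 0 = fun a => [a] := rfl
    rw [Nat.add_zero, h, List.flatMap_singleton']
  | succ m ih =>
    rw [← Nat.add_assoc, sub_succ, ih, List.flatMap_assoc]
    have h : ∀ x, (sub s (k + n) m x).flatMap (s (k + (n + m))) = sub s (k + n) (m + 1) x := by
      intro x
      rw [sub_succ, Nat.add_assoc]
    simp only [h]

theorem sum_sub {ι : Type} (s : ℕ → ι → List ι) (b : ℕ → ι → K)
    (h : ∀ k a, ((s k a).map (b (k + 1))).sum = b k a) (k n : ℕ) (a : ι) :
    ((sub s k n a).map (b (k + n))).sum = b k a := by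
  induction n with
  | zero => simp [sub_zero]
  | succ n ih =>
    rw [sub_succ, ← Nat.add_assoc, sum_flatMap _ _ _ _ (h (k + n)), ih]

/-- Linear independence over the integers. -/
def Indep {ι : Type} [Fintype ι] (b : ι → K) : Prop :=
  ∀ c : ι → ℤ, ∑ a, (c a : K) * b a = 0 → c = 0

theorem indep_iff {ι : Type} [Fintype ι] (b : ι → K) : Indep b ↔ LinearIndependent ℤ b := by
  rw [Fintype.linearIndependent_iff]
  constructor
  · intro h g hg a
    have h1 : ∑ a, (g a : K) * b a = 0 := by
      rw [← hg]
      exact Finset.sum_congr rfl fun a _ => (zsmul_eq_mul _ _).symm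
    exact congrFun (h g h1) a
  · intro h c hc
    funext a
    refine h c ?_ a
    rw [← hc]
    exact Finset.sum_congr rfl fun a _ => zsmul_eq_mul _ _

/-- Row Bas: a sequence of positive bases, each letter of one is a word in the next, such that
every positive element of the span is the sum of a word in some of them. -/
theorem exists_bases {ι : Type} [Fintype ι] [DecidableEq ι] (b₀ : ι → K) (h0 : ∀ a, 0 < b₀ a)
    (hi : Indep b₀) :
    ∃ (b : ℕ → ι → K) (s : ℕ → ι → List ι), b 0 = b₀ ∧ (∀ k a, 0 < b k a) ∧
      (∀ k, Indep (b k)) ∧ (∀ k a, ((s k a).map (b (k + 1))).sum = b k a) ∧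
      (∀ k a, ∃ c : ι → ℤ, b k a = ∑ a', (c a' : K) * b₀ a') ∧
      ∀ c : ι → ℤ, 0 < ∑ a, (c a : K) * b₀ a →
        ∃ k, ∃ w : List ι, (w.map (b k)).sum = ∑ a, (c a : K) * b₀ a := by
  rw [indep_iff] at hi
  -- one step
  let B := {b : ι → K // (∀ a, 0 < b a) ∧ LinearIndependent ℤ b ∧
    Submodule.span ℤ (Set.range b) = Submodule.span ℤ (Set.range b₀)}
  obtain ⟨e, he⟩ := exists_surjective_nat (ι → ℤ)
  have hmem : ∀ c : ι → ℤ, ∑ a, (c a : K) * b₀ a ∈ Submodule.span ℤ (Set.range b₀) := fun c =>
    (Submodule.mem_span_range_iff_exists_fun ℤ).2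
      ⟨c, Finset.sum_congr rfl fun a _ => zsmul_eq_mul _ _⟩
  have step : ∀ (k : ℕ) (b : B), ∃ (b' : B) (s : ι → List ι),
      (∀ a, ((s a).map b'.1).sum = b.1 a) ∧
      (0 < ∑ a, (e k a : K) * b₀ a →
        ∃ w : List ι, (w.map b'.1).sum = ∑ a, (e k a : K) * b₀ a) := by
    intro k b
    by_cases h : 0 < ∑ a, (e k a : K) * b₀ a
    · obtain ⟨s, b', w, h1, h2⟩ := exists_ref (b := b.1) b.2.1 b.2.2.1
        (f := ∑ a, (e k a : K) * b₀ a) (by rw [b.2.2.2]; exact hmem _) h
      exact ⟨⟨b', h1.pos, h1.ind, h1.span.trans b.2.2.2⟩, s, h1.sum, fun _ => ⟨w, h2⟩⟩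
    · exact ⟨b, fun a => [a], fun a => by simp, fun h' => absurd h' h⟩
  choose nx sx hs hw using step
  let bb : ℕ → B := fun k => Nat.rec ⟨b₀, h0, hi, rfl⟩ (fun k b => nx k b) k
  have hbb : ∀ k, bb (k + 1) = nx k (bb k) := fun k => rfl
  refine ⟨fun k => (bb k).1, fun k => sx k (bb k), rfl, fun k => (bb k).2.1,
    fun k => (indep_iff _).2 (bb k).2.2.1, fun k a => ?_, fun k a => ?_, ?_⟩
  · show ((sx k (bb k) a).map (bb (k + 1)).1).sum = (bb k).1 a
    rw [hbb]
    exact hs k (bb k) a
  · have h1 : (bb k).1 a ∈ Submodule.span ℤ (Set.range b₀) :=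
      (bb k).2.2.2.le (Submodule.subset_span ⟨a, rfl⟩)
    obtain ⟨c, hc⟩ := (Submodule.mem_span_range_iff_exists_fun ℤ).1 h1
    refine ⟨c, ?_⟩
    show (bb k).1 a = _
    rw [← hc]
    exact Finset.sum_congr rfl fun a _ => zsmul_eq_mul _ _
  · intro c hc
    obtain ⟨k, hk⟩ := he c
    obtain ⟨w, hw'⟩ := hw k (bb k) (by rw [hk]; exact hc)
    rw [hk] at hw'
    exact ⟨k + 1, w, hw'⟩

/-- A finitely generated group of real numbers has a positive basis. -/
theorem exists_basis (D : Finset K) (_hD : ∃ d ∈ D, 0 < d) :
    ∃ (n : ℕ) (b : Fin n → K), (∀ a, 0 < b a) ∧ Indep b ∧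
      ∀ d ∈ D, ∃ c : Fin n → ℤ, d = ∑ a, (c a : K) * b a := by
  classical
  let Γ := Submodule.span ℤ (D : Set K)
  have hfin : Module.Finite ℤ Γ :=
    Module.Finite.iff_fg.2 (Submodule.fg_span D.finite_toSet)
  have htf : Module.IsTorsionFree ℤ Γ := inferInstance
  have hfree : Module.Free ℤ Γ := inferInstance
  let B := Module.finBasis ℤ Γ
  let n := Module.finrank ℤ Γ
  have hli : LinearIndependent ℤ (fun a => (B a : K)) :=
    B.linearIndependent.map' Γ.subtype (Submodule.ker_subtype _)
  have hne : ∀ a, (B a : K) ≠ 0 := fun a => hli.ne_zero a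
  let ε : Fin n → ℤ := fun a => if 0 < (B a : K) then 1 else -1
  have hε : ∀ a, (ε a : K) * (B a : K) = |(B a : K)| := by
    intro a
    by_cases h : 0 < (B a : K)
    · simp only [ε, if_pos h, abs_of_pos h]
      norm_num
    · have h' : (B a : K) < 0 := lt_of_le_of_ne (not_lt.1 h) (hne a)
      simp only [ε, if_neg h, abs_of_neg h']
      norm_num
  have hε2 : ∀ a, ε a * ε a = 1 := by
    intro a
    by_cases h : 0 < (B a : K)
    · simp only [ε, if_pos h]; norm_num
    · simp only [ε, if_neg h]; norm_num
  refine ⟨n, fun a => |(B a : K)|, fun a => abs_pos.2 (hne a), ?_, ?_⟩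
  · intro c hc
    rw [Fintype.linearIndependent_iff] at hli
    have h1 : ∑ a, (c a * ε a) • (B a : K) = 0 := by
      rw [← hc]
      refine Finset.sum_congr rfl fun a _ => ?_
      have h6 := hε a
      rw [zsmul_eq_mul]
      show _ = (c a : K) * |(B a : K)|
      rw [← h6]
      push_cast
      ring
    have h2 := hli _ h1
    funext a
    have h3 := h2 a
    have h4 : c a * ε a * ε a = 0 := by rw [h3, zero_mul]
    rw [mul_assoc, hε2, mul_one] at h4
    exact h4
  · intro d hd
    have hdΓ : d ∈ Γ := Submodule.subset_span hd
    refine ⟨fun a => B.repr ⟨d, hdΓ⟩ a * ε a, ?_⟩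
    have h1 := congrArg (Submodule.subtype Γ) (B.sum_repr ⟨d, hdΓ⟩)
    rw [map_sum] at h1
    simp only [map_smul, Submodule.subtype_apply] at h1
    refine h1.symm.trans ?_
    refine Finset.sum_congr rfl fun a _ => ?_
    have h6 := hε a
    rw [zsmul_eq_mul]
    show _ = ((B.repr ⟨d, hdΓ⟩ a * ε a : ℤ) : K) * |(B a : K)|
    rw [← h6]
    push_cast
    have h5 : (ε a : K) * (ε a : K) = 1 := by exact_mod_cast hε2 a
    calc ((B.repr ⟨d, hdΓ⟩ a : ℤ) : K) * (B a : K)
        = ((B.repr ⟨d, hdΓ⟩ a : ℤ) : K) * (B a : K) * 1 := by ring
      _ = ((B.repr ⟨d, hdΓ⟩ a : ℤ) : K) * (B a : K) * ((ε a : K) * (ε a : K)) := by rw [h5]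
      _ = _ := by ring

/-- **Riesz refinement.** Two lists of positive numbers of a group `Γ` with equal sums have a common
list of pieces. -/
theorem riesz_aux (Γ : AddSubgroup K) : ∀ (n : ℕ) (A B : List K), A.length + B.length ≤ n →
    (∀ a ∈ A, 0 < a ∧ a ∈ Γ) → (∀ b ∈ B, 0 < b ∧ b ∈ Γ) → A.sum = B.sum →
    ∃ PA PB : List (List K), PA.flatten = PB.flatten ∧ PA.map List.sum = A ∧
      PB.map List.sum = B ∧ ∀ p ∈ PA.flatten, 0 < p ∧ p ∈ Γ := by
  intro n
  induction n with
  | zero =>
    intro A B hn _ _ _
    have hA : A = [] := List.length_eq_zero_iff.1 (by omega)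
    have hB : B = [] := List.length_eq_zero_iff.1 (by omega)
    subst hA hB
    exact ⟨[], [], rfl, rfl, rfl, by simp⟩
  | succ n ih =>
    intro A B hn hA hB h
    have hpos : ∀ L : List K, (∀ a ∈ L, 0 < a ∧ a ∈ Γ) → 0 ≤ L.sum := fun L hL =>
      List.sum_nonneg fun a ha => (hL a ha).1.le
    rcases A with _ | ⟨a, A⟩
    · rcases B with _ | ⟨b, B⟩
      · exact ⟨[], [], rfl, rfl, rfl, by simp⟩
      · exfalso
        have h1 := (hB b List.mem_cons_self).1
        have h2 := hpos B fun x hx => hB x (List.mem_cons_of_mem _ hx)
        rw [List.sum_nil, List.sum_cons] at h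
        linarith
    rcases B with _ | ⟨b, B⟩
    · exfalso
      have h1 := (hA a List.mem_cons_self).1
      have h2 := hpos A fun x hx => hA x (List.mem_cons_of_mem _ hx)
      rw [List.sum_nil, List.sum_cons] at h
      linarith
    have ha := hA a List.mem_cons_self
    have hb := hB b List.mem_cons_self
    have hA' : ∀ x ∈ A, 0 < x ∧ x ∈ Γ := fun x hx => hA x (List.mem_cons_of_mem _ hx)
    have hB' : ∀ x ∈ B, 0 < x ∧ x ∈ Γ := fun x hx => hB x (List.mem_cons_of_mem _ hx)
    rw [List.sum_cons, List.sum_cons] at h
    rw [List.length_cons, List.length_cons] at hn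
    rcases lt_trichotomy a b with hab | hab | hab
    · obtain ⟨PA, PB, h1, h2, h3, h4⟩ := ih A ((b - a) :: B)
        (by rw [List.length_cons]; omega) hA'
        (fun x hx => by
          rcases List.mem_cons.1 hx with rfl | hx
          · exact ⟨sub_pos.2 hab, Γ.sub_mem hb.2 ha.2⟩
          · exact hB' x hx)
        (by rw [List.sum_cons]; linarith)
      rcases PB with _ | ⟨p, PB⟩
      · simp at h3
      rw [List.map_cons, List.cons.injEq] at h3
      refine ⟨[a] :: PA, (a :: p) :: PB, ?_, ?_, ?_, ?_⟩
      · rw [List.flatten_cons, List.flatten_cons, h1, List.flatten_cons]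
        rfl
      · rw [List.map_cons, h2, List.sum_singleton]
      · rw [List.map_cons, List.sum_cons, h3.1, h3.2, add_sub_cancel]
      · intro x hx
        rw [List.flatten_cons, List.singleton_append, List.mem_cons] at hx
        rcases hx with rfl | hx
        · exact ha
        · exact h4 x hx
    · subst hab
      obtain ⟨PA, PB, h1, h2, h3, h4⟩ := ih A B (by omega) hA' hB' (by linarith)
      refine ⟨[a] :: PA, [a] :: PB, ?_, ?_, ?_, ?_⟩
      · rw [List.flatten_cons, List.flatten_cons, h1]
      · rw [List.map_cons, h2, List.sum_singleton]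
      · rw [List.map_cons, h3, List.sum_singleton]
      · intro x hx
        rw [List.flatten_cons, List.singleton_append, List.mem_cons] at hx
        rcases hx with rfl | hx
        · exact ha
        · exact h4 x hx
    · obtain ⟨PA, PB, h1, h2, h3, h4⟩ := ih ((a - b) :: A) B
        (by rw [List.length_cons]; omega)
        (fun x hx => by
          rcases List.mem_cons.1 hx with rfl | hx
          · exact ⟨sub_pos.2 hab, Γ.sub_mem ha.2 hb.2⟩
          · exact hA' x hx) hB'
        (by rw [List.sum_cons]; linarith)
      rcases PA with _ | ⟨p, PA⟩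
      · simp at h2
      rw [List.map_cons, List.cons.injEq] at h2
      refine ⟨(b :: p) :: PA, [b] :: PB, ?_, ?_, ?_, ?_⟩
      · rw [List.flatten_cons, List.flatten_cons, ← h1, List.flatten_cons]
        rfl
      · rw [List.map_cons, List.sum_cons, h2.1, h2.2, add_sub_cancel]
      · rw [List.map_cons, h3, List.sum_singleton]
      · intro x hx
        rw [List.flatten_cons, List.cons_append, List.mem_cons] at hx
        rcases hx with rfl | hx
        · exact hb
        · exact h4 x (by rw [List.flatten_cons]; exact hx)

/-- Riesz refinement. -/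
theorem riesz (Γ : AddSubgroup K) (A B : List K) (hA : ∀ a ∈ A, 0 < a ∧ a ∈ Γ)
    (hB : ∀ a ∈ B, 0 < a ∧ a ∈ Γ) (h : A.sum = B.sum) :
    ∃ PA PB : List (List K), PA.flatten = PB.flatten ∧ PA.map List.sum = A ∧
      PB.map List.sum = B ∧ ∀ p ∈ PA.flatten, 0 < p ∧ p ∈ Γ :=
  riesz_aux Γ _ A B le_rfl hA hB h

end Pool.Agent.IEF
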