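import Pool.Agent.IEF.Wrap

/-!
# Piecewise isometric permutations of the line close to infinity

A permutation of an ordered field which is isometric on the components of the complement of a
finite set is one translation or one reflection outside of a bounded set.
-/

set_option autoImplicit false
set_option linter.unusedSectionVars false

namespace Pool.Agent.IEF

open Set

variable {K : Type} [Field K] [LinearOrder K] [IsStrictOrderedRing K]

/-- Disjoint open intervals which cover `(p, q)` up to a finite set have total length `q - p`. -/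
theorem sum_lengths {ι : Type} [DecidableEq ι] (a b : ι → K) (q : K) (E : Finset K) (n : ℕ) :
    ∀ (s : Finset ι) (p : K), s.card = n → p ≤ q → (∀ i ∈ s, a i < b i) →
      (∀ i ∈ s, p ≤ a i ∧ b i ≤ q) → (∀ i ∈ s, ∀ j ∈ s, i ≠ j → b i ≤ a j ∨ b j ≤ a i) →
      (∀ x, p < x → x < q → x ∈ E ∨ ∃ i ∈ s, a i < x ∧ x < b i) →
      ∑ i ∈ s, (b i - a i) = q - p := by
  induction n with
  | zero =>
    intro s p hs hpq _ _ _ hc
    rw [Finset.card_eq_zero] at hs
    subst hs
    rw [Finset.sum_empty]
    rcases hpq.eq_or_lt with h | h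
    · rw [h, sub_self]
    · exfalso
      refine Set.Ioo_infinite h (E.finite_toSet.subset fun x hx => ?_)
      rcases hc x hx.1 hx.2 with h | ⟨i, hi, -⟩
      · exact h
      · exact absurd hi (Finset.notMem_empty i)
  | succ n ih =>
    intro s p hs hpq hlt hin hd hc
    have hne : s.Nonempty := by
      rw [← Finset.card_pos, hs]
      exact Nat.succ_pos n
    obtain ⟨i₀, hi₀⟩ := hne
    have hp : p < q := (hin i₀ hi₀).1.trans_lt ((hlt i₀ hi₀).trans_le (hin i₀ hi₀).2)
    have hex : ∃ i ∈ s, a i = p := by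
      by_contra hcon
      have h1 : ∀ i ∈ s, p < a i := fun i hi =>
        lt_of_le_of_ne (hin i hi).1 fun h => hcon ⟨i, hi, h.symm⟩
      have h2 : p < (insert q (s.image a)).min' (Finset.insert_nonempty _ _) := by
        rw [Finset.lt_min'_iff]
        intro y hy
        rcases Finset.mem_insert.1 hy with rfl | hy
        · exact hp
        · obtain ⟨i, hi, rfl⟩ := Finset.mem_image.1 hy
          exact h1 i hi
      refine Set.Ioo_infinite h2 (E.finite_toSet.subset fun x hx => ?_)
      have h3 : x < q := hx.2.trans_le (Finset.min'_le _ _ (Finset.mem_insert_self _ _))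
      rcases hc x hx.1 h3 with h | ⟨i, hi, h4, -⟩
      · exact h
      · have h5 : x < a i := hx.2.trans_le (Finset.min'_le _ _
          (Finset.mem_insert_of_mem (Finset.mem_image_of_mem _ hi)))
        exact absurd h4 (not_lt.2 h5.le)
    obtain ⟨i, hi, hip⟩ := hex
    have h1 := ih (s.erase i) (b i) (by rw [Finset.card_erase_of_mem hi, hs]; rfl)
      (hin i hi).2 (fun j hj => hlt j (Finset.mem_of_mem_erase hj)) (fun j hj => by
        have hj' := Finset.mem_of_mem_erase hj
        refine ⟨?_, (hin j hj').2⟩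
        rcases hd i hi j hj' (Finset.ne_of_mem_erase hj).symm with h | h
        · exact h
        · rw [hip] at h
          exact absurd ((hin j hj').1.trans_lt (hlt j hj')) (not_lt.2 h))
      (fun j hj k hk => hd j (Finset.mem_of_mem_erase hj) k (Finset.mem_of_mem_erase hk))
      (fun x h2 h3 => by
        rcases hc x ((hin i hi).1.trans_lt ((hlt i hi).trans h2)) h3 with h | ⟨j, hj, h4, h5⟩
        · exact Or.inl h
        · refine Or.inr ⟨j, Finset.mem_erase.2 ⟨?_, hj⟩, h4, h5⟩
          rintro rfl
          exact lt_asymm h2 h5)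
    rw [← Finset.add_sum_erase s _ hi, h1, hip]
    ring

/-- The pairs of neighbours of `F`. -/
def adj [DecidableEq K] (F : Finset K) : Finset (K × K) :=
  (F ×ˢ F).filter fun P => P.1 < P.2 ∧ ∀ d ∈ F, ¬ (P.1 < d ∧ d < P.2)

theorem mem_adj [DecidableEq K] {F : Finset K} {P : K × K} : P ∈ adj F ↔
    (P.1 ∈ F ∧ P.2 ∈ F) ∧ P.1 < P.2 ∧ ∀ d ∈ F, ¬ (P.1 < d ∧ d < P.2) := by
  unfold adj
  rw [Finset.mem_filter, Finset.mem_product]

theorem adj_disj [DecidableEq K] {F : Finset K} {P Q : K × K} (hP : P ∈ adj F) (hQ : Q ∈ adj F)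
    (hPQ : P ≠ Q) : P.2 ≤ Q.1 ∨ Q.2 ≤ P.1 := by
  rw [mem_adj] at hP hQ
  obtain ⟨⟨p1, p2⟩, p3, p4⟩ := hP
  obtain ⟨⟨q1, q2⟩, q3, q4⟩ := hQ
  by_contra hcon
  rw [not_or, not_le, not_le] at hcon
  have e1 : P.1 = Q.1 := by
    rcases lt_trichotomy P.1 Q.1 with h | h | h
    · exact absurd ⟨h, hcon.1⟩ (p4 _ q1)
    · exact h
    · exact absurd ⟨h, hcon.2⟩ (q4 _ p1)
  have e2 : P.2 = Q.2 := by
    rcases lt_trichotomy P.2 Q.2 with h | h | h
    · exact absurd ⟨e1 ▸ p3, h⟩ (q4 _ p2)
    · exact h
    · exact absurd ⟨e1.symm ▸ q3, h⟩ (p4 _ q2)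
  exact hPQ (Prod.ext e1 e2)

theorem adj_cover [DecidableEq K] {F : Finset K} {m M : K} (hm : m ∈ F) (hM : M ∈ F) {x : K}
    (h1 : m < x) (h2 : x < M) (hx : x ∉ F) : ∃ P ∈ adj F, P.1 < x ∧ x < P.2 := by
  have n1 : (F.filter fun c => c < x).Nonempty := ⟨m, Finset.mem_filter.2 ⟨hm, h1⟩⟩
  have n2 : (F.filter fun c => x < c).Nonempty := ⟨M, Finset.mem_filter.2 ⟨hM, h2⟩⟩
  have c1 := Finset.mem_filter.1 (Finset.max'_mem _ n1)
  have c2 := Finset.mem_filter.1 (Finset.min'_mem _ n2)
  refine ⟨((F.filter fun c => c < x).max' n1, (F.filter fun c => x < c).min' n2),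
    mem_adj.2 ⟨⟨c1.1, c2.1⟩, c1.2.trans c2.2, fun d hd h => ?_⟩, c1.2, c2.2⟩
  rcases lt_trichotomy d x with h3 | h3 | h3
  · exact absurd h.1 (not_lt.2 (Finset.le_max' _ _ (Finset.mem_filter.2 ⟨hd, h3⟩)))
  · exact hx (h3 ▸ hd)
  · exact absurd h.2 (not_lt.2 (Finset.min'_le _ _ (Finset.mem_filter.2 ⟨hd, h3⟩)))

/-- Isometries of a set with two points. -/
theorem iso_line {S : Set K} {q : K → K} (h : ∀ s ∈ S, ∀ t ∈ S, |q s - q t| = |s - t|)
    {a b : K} (ha : a ∈ S) (hb : b ∈ S) (hab : a < b) :
    ∃ c : K, (∀ t ∈ S, q t = t + c) ∨ ∀ t ∈ S, q t = -t + c := by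
  have h0 := h b hb a ha
  rw [abs_of_pos (sub_pos.2 hab)] at h0
  have key : ∀ t ∈ S, (q b - q a = b - a → q t = q a + (t - a)) ∧
      (q b - q a = -(b - a) → q t = q a - (t - a)) := by
    intro t ht
    have e1 := h t ht a ha
    have e2 := h t ht b hb
    have f1 : q t - q a = t - a ∨ q t - q a = -(t - a) := by
      rcases abs_cases (q t - q a) with ⟨x1, _⟩ | ⟨x1, _⟩ <;>
        rcases abs_cases (t - a) with ⟨y1, _⟩ | ⟨y1, _⟩ <;> rw [x1, y1] at e1
      · left; linarith
      · right; linarith
      · right; linarith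
      · left; linarith
    have f2 : q t - q b = t - b ∨ q t - q b = -(t - b) := by
      rcases abs_cases (q t - q b) with ⟨x1, _⟩ | ⟨x1, _⟩ <;>
        rcases abs_cases (t - b) with ⟨y1, _⟩ | ⟨y1, _⟩ <;> rw [x1, y1] at e2
      · left; linarith
      · right; linarith
      · right; linarith
      · left; linarith
    constructor <;> intro hq <;> rcases f1 with f1 | f1 <;> rcases f2 with f2 | f2 <;> linarith
  rcases abs_cases (q b - q a) with ⟨x1, _⟩ | ⟨x1, _⟩
  · refine ⟨q a - a, Or.inl fun t ht => ?_⟩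
    have := (key t ht).1 (by linarith)
    linarith
  · refine ⟨q a + a, Or.inr fun t ht => ?_⟩
    have := (key t ht).2 (by linarith)
    linarith

/-- The image of a component is an interval of the same length. -/
theorem image_adj [DecidableEq K] {F : Finset K} {g : K → K} (hF : Pw F g) {P : K × K}
    (hP : P ∈ adj F) : ∃ lo hi : K, hi - lo = P.2 - P.1 ∧ g '' Ioo P.1 P.2 = Ioo lo hi := by
  rw [mem_adj] at hP
  obtain ⟨_, h1, h2⟩ := hP
  have h3 : ∀ s ∈ Ioo P.1 P.2, ∀ t ∈ Ioo P.1 P.2, |g s - g t| = |s - t| := by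
    intro s hs t ht
    refine hF s t fun c hc => ?_
    by_contra hcon
    refine h2 c hc ?_
    rcases le_or_gt c P.1 with h | h
    · exact absurd (Or.inl ⟨h.trans_lt hs.1, h.trans_lt ht.1⟩) hcon
    · refine ⟨h, ?_⟩
      by_contra h'
      exact hcon (Or.inr ⟨hs.2.trans_le (not_lt.1 h'), ht.2.trans_le (not_lt.1 h')⟩)
  have e1 : (2 * P.1 + P.2) / 3 ∈ Ioo P.1 P.2 := by constructor <;> linarith
  have e2 : (P.1 + 2 * P.2) / 3 ∈ Ioo P.1 P.2 := by constructor <;> linarith
  obtain ⟨c, hc | hc⟩ := iso_line h3 e1 e2 (by linarith)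
  · refine ⟨P.1 + c, P.2 + c, by ring, ?_⟩
    ext y
    constructor
    · rintro ⟨x, hx, rfl⟩
      rw [hc x hx]
      exact ⟨by linarith [hx.1], by linarith [hx.2]⟩
    · rintro ⟨h4, h5⟩
      refine ⟨y - c, ⟨by linarith, by linarith⟩, ?_⟩
      rw [hc _ ⟨by linarith, by linarith⟩, sub_add_cancel]
  · refine ⟨-P.2 + c, -P.1 + c, by ring, ?_⟩
    ext y
    constructor
    · rintro ⟨x, hx, rfl⟩
      rw [hc x hx]
      exact ⟨by linarith [hx.2], by linarith [hx.1]⟩
    · rintro ⟨h4, h5⟩
      refine ⟨c - y, ⟨by linarith, by linarith⟩, ?_⟩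
      rw [hc _ ⟨by linarith, by linarith⟩]
      ring

/-- The length of the complement of the ends does not change. -/
theorem length_eq {F : Finset K} {g : Equiv.Perm K} (hF : Pw F g) {m M : K} (hm : m ∈ F)
    (hM : M ∈ F) (hmM : ∀ c ∈ F, m ≤ c ∧ c ≤ M) {p q : K} (hpq : p ≤ q)
    (h : g '' (Iio m ∪ Ioi M) = Iio p ∪ Ioi q) : q - p = M - m := by
  classical
  have hlen := fun P (hP : P ∈ adj F) => image_adj hF hP
  choose! lo hi h1 h2 using hlen
  have hlt : ∀ P ∈ adj F, lo P < hi P := by
    intro P hP
    have := (mem_adj.1 hP).2.1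
    have := h1 P hP
    linarith
  have hmM' := (hmM m hm).2
  -- the intervals of the domain
  have s1 : ∑ P ∈ adj F, (P.2 - P.1) = M - m := by
    refine sum_lengths (fun P : K × K => P.1) (fun P => P.2) M F _ (adj F) m rfl hmM' ?_ ?_ ?_ ?_
    · intro P hP
      exact (mem_adj.1 hP).2.1
    · intro P hP
      exact ⟨(hmM _ (mem_adj.1 hP).1.1).1, (hmM _ (mem_adj.1 hP).1.2).2⟩
    · intro P hP Q hQ hPQ
      exact adj_disj hP hQ hPQ
    · intro x hx1 hx2
      by_cases hx : x ∈ F
      · exact Or.inl hx
      · exact Or.inr (adj_cover hm hM hx1 hx2 hx)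
  -- their images
  have hdis : ∀ P ∈ adj F, ∀ y, lo P < y → y < hi P → ∀ x, g x = y → P.1 < x ∧ x < P.2 := by
    intro P hP y hy1 hy2 x hx
    have h3 : y ∈ g '' Ioo P.1 P.2 := by
      rw [h2 P hP]
      exact ⟨hy1, hy2⟩
    obtain ⟨x', hx', e⟩ := h3
    have := g.injective (hx.trans e.symm)
    rw [this]
    exact hx'
  have hout : ∀ P ∈ adj F, ∀ y, lo P < y → y < hi P → ¬ (y < p ∨ q < y) := by
    intro P hP y hy1 hy2 hcon
    have h3 : y ∈ g '' (Iio m ∪ Ioi M) := by
      rw [h]
      exact hcon
    obtain ⟨x, hx, e⟩ := h3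
    have h4 := hdis P hP y hy1 hy2 x e
    have h5 := hmM _ (mem_adj.1 hP).1.1
    have h6 := hmM _ (mem_adj.1 hP).1.2
    rcases hx with hx | hx
    · exact absurd (h5.1.trans_lt h4.1) (not_lt.2 (le_of_lt hx))
    · exact absurd (h4.2.trans_le h6.2) (not_lt.2 (le_of_lt hx))
  have s2 : ∑ P ∈ adj F, (hi P - lo P) = q - p := by
    refine sum_lengths lo hi q (F.image g) _ (adj F) p rfl hpq hlt ?_ ?_ ?_
    · intro P hP
      constructor
      · by_contra hcon
        obtain ⟨y, hy1, hy2⟩ := exists_between (lt_min (hlt P hP) (not_le.1 hcon))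
        exact hout P hP y hy1 (hy2.trans_le (min_le_left _ _))
          (Or.inl (hy2.trans_le (min_le_right _ _)))
      · by_contra hcon
        obtain ⟨y, hy1, hy2⟩ := exists_between (max_lt (hlt P hP) (not_le.1 hcon))
        exact hout P hP y ((le_max_left _ _).trans_lt hy1) hy2
          (Or.inr ((le_max_right _ _).trans_lt hy1))
    · intro P hP Q hQ hPQ
      by_contra hcon
      rw [not_or, not_le, not_le] at hcon
      have h3 : max (lo P) (lo Q) < min (hi P) (hi Q) :=
        max_lt (lt_min (hlt P hP) hcon.2) (lt_min hcon.1 (hlt Q hQ))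
      obtain ⟨y, hy1, hy2⟩ := exists_between h3
      have h4 := hdis P hP y ((le_max_left _ _).trans_lt hy1) (hy2.trans_le (min_le_left _ _))
        (g.symm y) (g.apply_symm_apply y)
      have h5 := hdis Q hQ y ((le_max_right _ _).trans_lt hy1) (hy2.trans_le (min_le_right _ _))
        (g.symm y) (g.apply_symm_apply y)
      rcases adj_disj hP hQ hPQ with h6 | h6
      · exact absurd (h4.2.trans_le h6) (not_lt.2 h5.1.le)
      · exact absurd (h5.2.trans_le h6) (not_lt.2 h4.1.le)
    · intro y hy1 hy2
      obtain ⟨x, rfl⟩ : ∃ x, g x = y := ⟨g.symm y, g.apply_symm_apply y⟩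
      have h3 : ¬ (x < m ∨ M < x) := by
        intro hcon
        have h4 : g x ∈ g '' (Iio m ∪ Ioi M) := ⟨x, hcon, rfl⟩
        rw [h] at h4
        rcases h4 with h4 | h4
        · exact lt_asymm hy1 h4
        · exact lt_asymm hy2 h4
      rw [not_or, not_lt, not_lt] at h3
      by_cases hx : x ∈ F
      · exact Or.inl (Finset.mem_image_of_mem _ hx)
      · right
        obtain ⟨P, hP, h4, h5⟩ := adj_cover hm hM
          (lt_of_le_of_ne h3.1 fun e => hx (e ▸ hm)) (lt_of_le_of_ne h3.2 fun e => hx (e ▸ hM)) hx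
        have h6 : g x ∈ g '' Ioo P.1 P.2 := ⟨x, ⟨h4, h5⟩, rfl⟩
        rw [h2 P hP] at h6
        exact ⟨P, hP, h6.1, h6.2⟩
  rw [← s2, ← s1]
  exact Finset.sum_congr rfl fun P hP => h1 P hP

/-- Close to infinity, `g` is one translation or one reflection. -/
theorem ends {F : Finset K} {g : Equiv.Perm K} (hF : Pw F g) :
    ∃ M t : K, 0 < M ∧ ((∀ x, M < |x| → g x = x + t) ∨ ∀ x, M < |x| → g x = -x + t) := by
  classical
  -- there are cuts
  have hF' : Pw (insert 0 F) g := fun x y h => hF x y fun c hc => h c (Finset.mem_insert_of_mem hc)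
  have hne : (insert (0 : K) F).Nonempty := Finset.insert_nonempty _ _
  revert hF' hne
  generalize insert (0 : K) F = F'
  intro hF hne
  set m := F'.min' hne with hm
  set M := F'.max' hne with hM
  have mF : m ∈ F' := Finset.min'_mem _ _
  have MF : M ∈ F' := Finset.max'_mem _ _
  have hmM : ∀ c ∈ F', m ≤ c ∧ c ≤ M := fun c hc => ⟨Finset.min'_le _ _ hc, Finset.le_max' _ _ hc⟩
  have hmM' : m ≤ M := (hmM m mF).2
  obtain ⟨a, ha⟩ := iso_line (S := Ioi M) (q := g) (fun s hs t ht => hF s t fun c hc =>
    Or.inl ⟨(hmM c hc).2.trans_lt hs, (hmM c hc).2.trans_lt ht⟩)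
    (a := M + 1) (b := M + 2) (by simp) (by simp) (by linarith)
  obtain ⟨b, hb⟩ := iso_line (S := Iio m) (q := g) (fun s hs t ht => hF s t fun c hc =>
    Or.inr ⟨lt_of_lt_of_le hs (hmM c hc).1, lt_of_lt_of_le ht (hmM c hc).1⟩)
    (a := m - 2) (b := m - 1) (by simp) (by simp) (by linarith)
  have hx : ∀ x : K, max |m| |M| + 1 < |x| → x ∈ Ioi M ∨ x ∈ Iio m := fun x hx => by
    have e1 := le_max_left |m| |M|
    have e2 := le_max_right |m| |M|
    rcases lt_abs.1 hx with h | h
    · left
      change M < x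
      have := le_abs_self M
      linarith
    · right
      change x < m
      have := neg_abs_le m
      linarith
  have hpos : 0 < max |m| |M| + 1 := by
    have := (abs_nonneg m).trans (le_max_left |m| |M|)
    linarith
  rcases ha with ha | ha <;> rcases hb with hb | hb
  · -- translation at both ends
    have h1 : g '' (Iio m ∪ Ioi M) = Iio (m + b) ∪ Ioi (M + a) := by
      rw [image_union]
      congr 1
      · ext y
        constructor
        · rintro ⟨x, hx, rfl⟩
          rw [hb x hx]
          exact add_lt_add_left hx b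
        · intro hy
          have hy' : y - b < m := by
            have : y < m + b := hy
            linarith
          exact ⟨y - b, hy', by rw [hb _ hy', sub_add_cancel]⟩
      · ext y
        constructor
        · rintro ⟨x, hx, rfl⟩
          rw [ha x hx]
          exact add_lt_add_left hx a
        · intro hy
          have hy' : M < y - a := by
            have : M + a < y := hy
            linarith
          exact ⟨y - a, hy', by rw [ha _ hy', sub_add_cancel]⟩
    have h2 : m + b ≤ M + a := by
      by_contra hcon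
      obtain ⟨y, hy1, hy2⟩ := exists_between (not_le.1 hcon)
      have e1 : y - b < m := by linarith
      have e2 : M < y - a := by linarith
      have e3 := g.injective (((hb _ e1).trans (sub_add_cancel y b)).trans
        ((ha _ e2).trans (sub_add_cancel y a)).symm)
      linarith
    have h3 := length_eq hF mF MF hmM h2 h1
    have h4 : a = b := by linarith
    refine ⟨_, a, hpos, Or.inl fun x hxM => ?_⟩
    rcases hx x hxM with h | h
    · exact ha x h
    · rw [h4]
      exact hb x h
  · -- impossible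
    exfalso
    set y := max (M + a) (-m + b) + 1 with hy
    have e1 : M < y - a := by
      have := le_max_left (M + a) (-m + b)
      linarith
    have e2 : b - y < m := by
      have := le_max_right (M + a) (-m + b)
      linarith
    have e3 := g.injective ((ha _ e1).trans ((by ring : y - a + a = -(b - y) + b).trans
      (hb _ e2).symm))
    linarith
  · exfalso
    set y := min (-M + a) (m + b) - 1 with hy
    have e1 : M < a - y := by
      have := min_le_left (-M + a) (m + b)
      linarith
    have e2 : y - b < m := by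
      have := min_le_right (-M + a) (m + b)
      linarith
    have e3 := g.injective ((ha _ e1).trans ((by ring : -(a - y) + a = y - b + b).trans
      (hb _ e2).symm))
    linarith
  · -- reflection at both ends
    have h1 : g '' (Iio m ∪ Ioi M) = Iio (-M + a) ∪ Ioi (-m + b) := by
      rw [image_union, union_comm]
      congr 1
      · ext y
        constructor
        · rintro ⟨x, hx, rfl⟩
          rw [ha x hx]
          exact add_lt_add_left (neg_lt_neg hx) a
        · intro hy
          have hy' : M < a - y := by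
            have : y < -M + a := hy
            linarith
          exact ⟨a - y, hy', by rw [ha _ hy']; ring⟩
      · ext y
        constructor
        · rintro ⟨x, hx, rfl⟩
          rw [hb x hx]
          exact add_lt_add_left (neg_lt_neg hx) b
        · intro hy
          have hy' : b - y < m := by
            have : -m + b < y := hy
            linarith
          exact ⟨b - y, hy', by rw [hb _ hy']; ring⟩
    have h2 : -M + a ≤ -m + b := by
      by_contra hcon
      obtain ⟨y, hy1, hy2⟩ := exists_between (not_le.1 hcon)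
      have e1 : b - y < m := by linarith
      have e2 : M < a - y := by linarith
      have e3 := g.injective ((hb _ e1).trans ((by ring : -(b - y) + b = -(a - y) + a).trans
        (ha _ e2).symm))
      linarith
    have h3 := length_eq hF mF MF hmM h2 h1
    have h4 : a = b := by linarith
    refine ⟨_, a, hpos, Or.inr fun x hxM => ?_⟩
    rcases hx x hxM with h | h
    · exact ha x h
    · rw [h4]
      exact hb x h

end Pool.Agent.IEF
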