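import Mathlib

/-!
# Interval exchange transformations are products of restricted rotations
-/

set_option autoImplicit false
set_option linter.unusedSectionVars false

namespace Pool.Agent.IEF

variable {K : Type} [Field K] [LinearOrder K] [IsStrictOrderedRing K]

open Classical in
/-- `[a, b)` and `[b, c)` are exchanged. -/
noncomputable def rrF (a b c v : K) : K :=
  if a ≤ v ∧ v < b then v + (c - b) else if b ≤ v ∧ v < c then v - (b - a) else v

theorem rrF_rrF {a b c : K} (h : a ≤ b ∧ b ≤ c) (v : K) :
    rrF a (a + (c - b)) c (rrF a b c v) = v ∧ rrF a b c (rrF a (a + (c - b)) c v) = v := by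
  obtain ⟨h1, h2⟩ := h
  simp only [rrF]
  constructor <;> split_ifs <;> grind

open Classical in
/-- Restricted rotation. -/
noncomputable def rr (a b c : K) : Equiv.Perm K :=
  if h : a ≤ b ∧ b ≤ c then
    ⟨rrF a b c, rrF a (a + (c - b)) c, fun v => (rrF_rrF h v).1, fun v => (rrF_rrF h v).2⟩ else 1

/-- Interval exchange transformation of `[0, 1)`: for a finite set `F` of cuts, it is a
translation on each of the intervals into which `F` cuts `[0, 1)`. -/
def IsIET (f : Equiv.Perm (Set.Ico (0 : K) 1)) : Prop :=
  ∃ F : Finset K, ∀ x y : Set.Ico (0 : K) 1, (∀ c ∈ F, c ≤ (x : K) ↔ c ≤ (y : K)) →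
    (f x : K) - x = f y - y

/-- The restricted rotations of `[0, 1)`. -/
def RotS : Set (Equiv.Perm K) :=
  {g : Equiv.Perm K | ∃ a b c : K, 0 ≤ a ∧ a ≤ b ∧ b ≤ c ∧ c ≤ 1 ∧ g = rr a b c}

/-- `g` is a translation on each of the pieces, beginning at `p`. -/
def Pc (g : K → K) : K → List K → Prop
  | _, [] => True
  | p, l :: L => (∃ t, ∀ v, p ≤ v → v < p + l → g v = v + t) ∧ Pc g (p + l) L

theorem pc_append {g : K → K} {p : K} {A B : List K} :
    Pc g p (A ++ B) ↔ Pc g p A ∧ Pc g (p + A.sum) B := by
  induction A generalizing p with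
  | nil => simp [Pc]
  | cons a A ih =>
    simp only [List.cons_append, Pc, ih, List.sum_cons, and_assoc, add_assoc]

theorem pc_shift {g g' : K → K} {p d : K} {A : List K} (hA : ∀ l ∈ A, 0 < l)
    (h : ∀ v, p + d ≤ v → v < p + d + A.sum → g' v = g (v - d)) (hp : Pc g p A) :
    Pc g' (p + d) A := by
  induction A generalizing p with
  | nil => trivial
  | cons a A ih =>
    have ha := hA a List.mem_cons_self
    have hA' : ∀ l ∈ A, 0 < l := fun l hl => hA l (List.mem_cons_of_mem _ hl)
    have hs : 0 ≤ A.sum := List.sum_nonneg fun l hl => (hA' l hl).le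
    obtain ⟨⟨t, ht⟩, hp'⟩ := hp
    rw [List.sum_cons] at h
    refine ⟨⟨t - d, fun v h1 h2 => ?_⟩, ?_⟩
    · rw [h v h1 (by linarith), ht (v - d) (by linarith) (by linarith)]
      ring
    · have := ih (p := p + a) hA' (fun v h1 h2 => h v (by linarith) (by linarith)) hp'
      rwa [add_right_comm] at this

theorem exists_piece {p : K} {L : List K} {q : K} (h1 : p ≤ q) (h2 : q < p + L.sum) :
    ∃ A l B, L = A ++ l :: B ∧ p + A.sum ≤ q ∧ q < p + A.sum + l := by
  induction L generalizing p with
  | nil => simp at h2; linarith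
  | cons a L ih =>
    rw [List.sum_cons] at h2
    by_cases h : q < p + a
    · exact ⟨[], a, L, rfl, by simpa using h1, by simpa using h⟩
    · obtain ⟨A, l, B, rfl, h3, h4⟩ := ih (p := p + a) (by linarith) (by linarith)
      refine ⟨a :: A, l, B, rfl, ?_, ?_⟩ <;> rw [List.sum_cons] <;> linarith

theorem rr_apply {a b c : K} (h : a ≤ b ∧ b ≤ c) (v : K) : rr a b c v = rrF a b c v := by
  unfold rr
  rw [dif_pos h]
  rfl

theorem rr_inv_apply {a b c : K} (h : a ≤ b ∧ b ≤ c) (v : K) :
    (rr a b c)⁻¹ v = rrF a (a + (c - b)) c v := by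
  rw [Equiv.Perm.inv_eq_iff_eq, rr_apply h, (rrF_rrF h v).2]

theorem mem_closure_of_pc (n : ℕ) : ∀ (L : List K) (p : K) (g : Equiv.Perm K), L.length = n →
    (∀ l ∈ L, 0 < l) → 0 ≤ p → p + L.sum = 1 → (∀ v, v < p → g v = v) →
    (∀ v, 1 ≤ v → g v = v) → Pc g p L → g ∈ Subgroup.closure RotS := by
  induction n with
  | zero =>
    intro L p g hL _ _ hs h1 h2 _
    have : L = [] := List.eq_nil_of_length_eq_zero hL
    subst this
    have hg : g = 1 := by
      ext v
      rw [List.sum_nil, add_zero] at hs
      subst hs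
      rcases lt_or_ge v 1 with h | h
      · rw [h1 v h]; rfl
      · rw [h2 v h]; rfl
    rw [hg]
    exact Subgroup.one_mem _
  | succ n ih =>
    intro L p g hL hpos h0 hs h1 h2 hp
    have hLs : 0 < L.sum := by
      cases L with
      | nil => simp at hL
      | cons a L =>
        rw [List.sum_cons]
        have := hpos a List.mem_cons_self
        have : 0 ≤ L.sum := List.sum_nonneg fun l hl => (hpos l (List.mem_cons_of_mem _ hl)).le
        linarith
    obtain ⟨q, hq⟩ : ∃ q, g q = p := g.surjective p
    have hq1 : p ≤ q := by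
      by_contra hc
      push Not at hc
      rw [h1 q hc] at hq
      linarith
    have hq2 : q < p + L.sum := by
      by_contra hc
      push Not at hc
      rw [h2 q (by linarith)] at hq
      linarith
    obtain ⟨A, l, B, rfl, h3, h4⟩ := exists_piece hq1 hq2
    have hAp : ∀ x ∈ A, 0 < x := fun x hx => hpos x (by simp [hx])
    have hBp : ∀ x ∈ B, 0 < x := fun x hx => hpos x (by simp [hx])
    have hlp : 0 < l := hpos l (by simp)
    have hAs : 0 ≤ A.sum := List.sum_nonneg fun x hx => (hAp x hx).le
    have hBs : 0 ≤ B.sum := List.sum_nonneg fun x hx => (hBp x hx).le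
    rw [List.sum_append, List.sum_cons] at hs
    rw [pc_append] at hp
    obtain ⟨hpA, ⟨t, ht⟩, hpB⟩ := hp
    obtain ⟨s, hs'⟩ : ∃ s, s = p + A.sum := ⟨_, rfl⟩
    rw [← hs'] at h3 h4 ht hpB
    have ht' : t = p - q := by
      have := ht q h3 h4
      linarith
    have hsq : s = q := by
      by_contra hc
      have hlt : s < q := lt_of_le_of_ne h3 hc
      have h5 := ht s le_rfl (by linarith)
      have h6 : g s < p := by rw [h5]; linarith
      have h7 : g (g s) = g s := h1 _ h6
      have h8 := g.injective h7
      linarith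
    subst hsq
    have hr : p ≤ s ∧ s ≤ s + l := ⟨by linarith, by linarith⟩
    have hgr : g = g * (rr p s (s + l))⁻¹ * rr p s (s + l) := by group
    rw [hgr]
    refine Subgroup.mul_mem _ ?_ (Subgroup.subset_closure
      ⟨p, s, s + l, h0, hr.1, hr.2, by linarith, rfl⟩)
    have hinv : ∀ v, (rr p s (s + l))⁻¹ v = if p ≤ v ∧ v < p + l then v + (s - p)
        else if p + l ≤ v ∧ v < s + l then v - l else v := by
      intro v
      rw [rr_inv_apply hr]
      unfold rrF
      have e1 : p + (s + l - s) = p + l := by ring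
      have e2 : s + l - (p + l) = s - p := by ring
      have e3 : p + l - p = l := by ring
      rw [e1, e2, e3]
    refine ih (A ++ B) (p + l) _ ?_ ?_ (by linarith) (by rw [List.sum_append]; linarith)
      ?_ ?_ ?_
    · simp only [List.length_append, List.length_cons] at hL ⊢
      omega
    · intro x hx
      rcases List.mem_append.1 hx with hx | hx
      · exact hAp x hx
      · exact hBp x hx
    · intro v hv
      rw [Equiv.Perm.mul_apply, hinv]
      by_cases hc : p ≤ v
      · rw [if_pos ⟨hc, hv⟩, ht _ (by linarith) (by linarith), ht']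
        ring
      · rw [if_neg (fun h => hc h.1), if_neg (fun h => by linarith [h.1])]
        exact h1 v (by linarith)
    · intro v hv
      rw [Equiv.Perm.mul_apply, hinv, if_neg (fun h => by linarith [h.2]),
        if_neg (fun h => by linarith [h.2])]
      exact h2 v hv
    · rw [pc_append]
      constructor
      · refine pc_shift hAp (fun v h5 h6 => ?_) hpA
        rw [Equiv.Perm.mul_apply, hinv, if_neg (fun h => by linarith [h.2]),
          if_pos ⟨h5, by linarith⟩]
      · have := pc_shift (g := g) (g' := (g * (rr p s (s + l))⁻¹ : Equiv.Perm K)) (d := 0)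
          (p := s + l) (A := B) hBp (fun v h5 h6 => ?_) hpB
        · rw [add_zero] at this
          have e : p + l + A.sum = s + l := by rw [hs']; ring
          rwa [e]
        · rw [Equiv.Perm.mul_apply, hinv, if_neg (fun h => by linarith [h.2]),
            if_neg (fun h => by linarith [h.2]), sub_zero]

/-- The pieces of an interval exchange transformation. -/
theorem exists_pc (g : K → K) (F : Finset K) (n : ℕ) : ∀ p : K, p < 1 →
    (F.filter fun c => p < c ∧ c < 1).card = n →
    (∀ x y, p ≤ x → x < 1 → p ≤ y → y < 1 → (∀ c ∈ F, c ≤ x ↔ c ≤ y) → g x - x = g y - y) →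
    ∃ L : List K, (∀ l ∈ L, 0 < l) ∧ p + L.sum = 1 ∧ Pc g p L := by
  induction n using Nat.strong_induction_on with
  | _ n ih =>
    intro p hp hn hF
    rcases Finset.eq_empty_or_nonempty (F.filter fun c => p < c ∧ c < 1) with h | h
    · refine ⟨[1 - p], by simpa using hp, by simp, ⟨g p - p, fun v h1 h2 => ?_⟩, trivial⟩
      have h3 := hF v p h1 (by linarith) le_rfl hp (fun c hc => ?_)
      · linarith
      · have h4 : c ∉ F.filter fun c => p < c ∧ c < 1 := by rw [h]; exact Finset.notMem_empty c
        rw [Finset.mem_filter] at h4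
        constructor
        · intro h5
          by_contra h6
          exact h4 ⟨hc, by linarith, by linarith⟩
        · intro h5
          linarith
    · obtain ⟨c0, hc0, hmin⟩ := Finset.exists_min_image _ id h
      have hc0' := hc0
      rw [Finset.mem_filter] at hc0
      obtain ⟨hcF, hc1, hc2⟩ := hc0
      obtain ⟨L, hL1, hL2, hL3⟩ := ih (F.filter fun c => c0 < c ∧ c < 1).card (by
        rw [← hn]
        apply Finset.card_lt_card
        refine Finset.ssubset_iff_subset_ne.2 ⟨?_, ?_⟩
        · intro c hc
          rw [Finset.mem_filter] at hc ⊢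
          exact ⟨hc.1, by linarith [hc.2.1], hc.2.2⟩
        · intro he
          rw [← he, Finset.mem_filter] at hc0'
          exact absurd hc0'.2.1 (lt_irrefl _)) c0 hc2 rfl
        (fun x y h1 h2 h3 h4 h5 => hF x y (by linarith) h2 (by linarith) h4 h5)
      refine ⟨(c0 - p) :: L, ?_, ?_, ?_, ?_⟩
      · intro l hl
        rcases List.mem_cons.1 hl with rfl | hl
        · linarith
        · exact hL1 l hl
      · rw [List.sum_cons]
        linarith
      · refine ⟨g p - p, fun v h1 h2 => ?_⟩
        have h3 := hF v p h1 (by linarith) le_rfl hp (fun c hc => ?_)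
        · linarith
        · constructor
          · intro h5
            by_contra h6
            have := hmin c (by rw [Finset.mem_filter]; exact ⟨hc, by linarith, by linarith⟩)
            simp only [id] at this
            linarith
          · intro h5
            linarith
      · have e : p + (c0 - p) = c0 := by ring
        rw [e]
        exact hL3

/-- Row Fin: extended by the identity, it is a product of restricted rotations. -/
theorem iet_mem_closure {f : Equiv.Perm (Set.Ico (0 : K) 1)} (hf : IsIET f) :
    Equiv.Perm.ofSubtype f ∈ Subgroup.closure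
      {g : Equiv.Perm K | ∃ a b c : K, 0 ≤ a ∧ a ≤ b ∧ b ≤ c ∧ c ≤ 1 ∧ g = rr a b c} := by
  obtain ⟨F, hF⟩ := hf
  have hout : ∀ v, v ∉ Set.Ico (0 : K) 1 → Equiv.Perm.ofSubtype f v = v := fun v hv =>
    Equiv.Perm.ofSubtype_apply_of_not_mem f hv
  have hin : ∀ v (hv : v ∈ Set.Ico (0 : K) 1), Equiv.Perm.ofSubtype f v = f ⟨v, hv⟩ := fun v hv =>
    Equiv.Perm.ofSubtype_apply_of_mem f hv
  obtain ⟨L, hL1, hL2, hL3⟩ := exists_pc (Equiv.Perm.ofSubtype f : Equiv.Perm K) F _ 0 one_pos rfl
    (fun x y h1 h2 h3 h4 h5 => by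
      rw [hin x ⟨h1, h2⟩, hin y ⟨h3, h4⟩]
      exact hF ⟨x, h1, h2⟩ ⟨y, h3, h4⟩ h5)
  exact mem_closure_of_pc _ L 0 _ rfl hL1 le_rfl hL2
    (fun v hv => hout v (fun h => absurd h.1 (not_le.2 hv)))
    (fun v hv => hout v (fun h => absurd h.2 (not_lt.2 hv))) hL3

end Pool.Agent.IEF
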