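import Pool.Agent.IET.YB

/-!
# Exchanges of floors

A label is `n = (x, a)`, a floor is `[x, x + b a)`.
-/

set_option autoImplicit false
set_option linter.unusedSectionVars false

namespace Pool.Agent.IEF

open Pool.Agent.IET

variable {K : Type} [Field K] [LinearOrder K] [IsStrictOrderedRing K]

variable {ι : Type} [DecidableEq ι]

/-- The floor of a label. -/
def Fl (b : ι → K) (n : K × ι) : Set K := Set.Ico n.1 (n.1 + b n.2)

open Classical in
/-- The position of `v` when the floors are put in the order `V`. -/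
noncomputable def pos (b : ι → K) : List (K × ι) → K → K
  | [], _ => 0
  | n :: V, v => if v ∈ Fl b n then v - n.1 else b n.2 + pos b V v

/-- `v` is in a floor of `V`. -/
def InFl (b : ι → K) (V : List (K × ι)) (v : K) : Prop := ∃ n ∈ V, v ∈ Fl b n

/-- Disjoint floors. -/
def Dj (b : ι → K) (N : Set (K × ι)) : Prop := N.PairwiseDisjoint (Fl b)

omit [DecidableEq ι] in
theorem mem_Fl {b : ι → K} {n : K × ι} {v : K} : v ∈ Fl b n ↔ n.1 ≤ v ∧ v < n.1 + b n.2 :=
  Iff.rfl

omit [DecidableEq ι] in
theorem inFl_cons {b : ι → K} {n : K × ι} {V : List (K × ι)} {v : K} :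
    InFl b (n :: V) v ↔ v ∈ Fl b n ∨ InFl b V v := by
  unfold InFl
  simp only [List.mem_cons, exists_eq_or_imp]

omit [DecidableEq ι] in
theorem inFl_append {b : ι → K} {V W : List (K × ι)} {v : K} :
    InFl b (V ++ W) v ↔ InFl b V v ∨ InFl b W v := by
  unfold InFl
  simp only [List.mem_append, or_and_right, exists_or]

omit [DecidableEq ι] in
theorem inFl_perm {b : ι → K} {V W : List (K × ι)} (h : V.Perm W) {v : K} :
    InFl b V v ↔ InFl b W v := by
  unfold InFl
  simp only [h.mem_iff]

omit [DecidableEq ι] in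
theorem pos_nil (b : ι → K) (v : K) : pos b [] v = 0 := rfl

omit [DecidableEq ι] in
theorem pos_cons_in {b : ι → K} {n : K × ι} {V : List (K × ι)} {v : K} (h : v ∈ Fl b n) :
    pos b (n :: V) v = v - n.1 := by
  rw [pos, if_pos h]

omit [DecidableEq ι] in
theorem pos_cons_out {b : ι → K} {n : K × ι} {V : List (K × ι)} {v : K} (h : v ∉ Fl b n) :
    pos b (n :: V) v = b n.2 + pos b V v := by
  rw [pos, if_neg h]

omit [DecidableEq ι] in
theorem pos_nonneg {b : ι → K} (hb : ∀ a, 0 < b a) (V : List (K × ι)) (v : K) :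
    0 ≤ pos b V v := by
  induction V with
  | nil => exact le_rfl
  | cons n V ih =>
    by_cases h : v ∈ Fl b n
    · rw [pos_cons_in h]
      have := (mem_Fl.1 h).1
      linarith
    · rw [pos_cons_out h]
      have := hb n.2
      linarith

variable {b : ι → K} {N : Set (K × ι)}

omit [DecidableEq ι] in
theorem pos_mem (hb : ∀ a, 0 < b a) {V : List (K × ι)} {v : K} (hv : InFl b V v) :
    0 ≤ pos b V v ∧ pos b V v < (V.map (fun n => b n.2)).sum := by
  refine ⟨pos_nonneg hb V v, ?_⟩
  induction V with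
  | nil =>
    obtain ⟨n, hn, -⟩ := hv
    exact absurd hn List.not_mem_nil
  | cons n V ih =>
    rw [List.map_cons, List.sum_cons]
    have hs : 0 ≤ (V.map (fun n => b n.2)).sum := by
      apply List.sum_nonneg
      intro x hx
      obtain ⟨m, -, rfl⟩ := List.mem_map.1 hx
      exact (hb m.2).le
    by_cases h : v ∈ Fl b n
    · rw [pos_cons_in h]
      have := (mem_Fl.1 h).2
      linarith
    · rw [pos_cons_out h]
      have := ih ((inFl_cons.1 hv).resolve_left h)
      linarith

omit [DecidableEq ι] in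
theorem pos_inj' (hb : ∀ a, 0 < b a) {V : List (K × ι)} {v w : K} (hv : InFl b V v)
    (hw : InFl b V w) (h : pos b V v = pos b V w) : v = w := by
  induction V with
  | nil =>
    obtain ⟨n, hn, -⟩ := hv
    exact absurd hn List.not_mem_nil
  | cons n V ih =>
    by_cases h1 : v ∈ Fl b n
    · by_cases h2 : w ∈ Fl b n
      · rw [pos_cons_in h1, pos_cons_in h2] at h
        linarith
      · rw [pos_cons_in h1, pos_cons_out h2] at h
        have h3 := pos_nonneg hb V w
        have h4 := (mem_Fl.1 h1).2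
        linarith
    · by_cases h2 : w ∈ Fl b n
      · rw [pos_cons_out h1, pos_cons_in h2] at h
        have h3 := pos_nonneg hb V v
        have h4 := (mem_Fl.1 h2).2
        linarith
      · rw [pos_cons_out h1, pos_cons_out h2] at h
        exact ih ((inFl_cons.1 hv).resolve_left h1) ((inFl_cons.1 hw).resolve_left h2)
          (by linarith)

omit [DecidableEq ι] in
/-- (S2) -/
theorem pos_inj (hb : ∀ a, 0 < b a) (_hN : Dj b N) {V : List (K × ι)} (_hV : V.Nodup)
    (_hVN : ∀ n ∈ V, n ∈ N) {v w : K} (hv : InFl b V v) (hw : InFl b V w)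
    (h : pos b V v = pos b V w) : v = w :=
  pos_inj' hb hv hw h

omit [DecidableEq ι] in
theorem Dj.not_mem (hN : Dj b N) {n m : K × ι} (hn : n ∈ N) (hm : m ∈ N) (hnm : n ≠ m) {v : K}
    (hv : v ∈ Fl b n) : v ∉ Fl b m :=
  fun h => Set.disjoint_left.1 (hN hn hm hnm) hv h

omit [DecidableEq ι] in
theorem Dj.not_inFl (hN : Dj b N) {n : K × ι} {V : List (K × ι)} (hn : n ∈ N)
    (hV : ∀ m ∈ V, m ∈ N) (h : n ∉ V) {v : K} (hv : v ∈ Fl b n) : ¬ InFl b V v := by
  rintro ⟨m, hm, hvm⟩
  exact hN.not_mem hn (hV m hm) (fun h1 => h (h1 ▸ hm)) hv hvm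

omit [DecidableEq ι] in
/-- Every position is attained. -/
theorem pos_surj (hb : ∀ a, 0 < b a) (hN : Dj b N) {V : List (K × ι)} (hV : V.Nodup)
    (hVN : ∀ n ∈ V, n ∈ N) {p : K} (h0 : 0 ≤ p) (h1 : p < (V.map (fun n => b n.2)).sum) :
    ∃ v, InFl b V v ∧ pos b V v = p := by
  induction V generalizing p with
  | nil =>
    rw [List.map_nil, List.sum_nil] at h1
    exact absurd h1 (not_lt.2 h0)
  | cons n V ih =>
    rw [List.nodup_cons] at hV
    by_cases hp : p < b n.2
    · have hin : n.1 + p ∈ Fl b n := mem_Fl.2 ⟨by linarith, by linarith⟩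
      exact ⟨n.1 + p, inFl_cons.2 (Or.inl hin), by rw [pos_cons_in hin]; ring⟩
    · push Not at hp
      rw [List.map_cons, List.sum_cons] at h1
      obtain ⟨v, hv, hpv⟩ := ih hV.2 (fun m hm => hVN m (List.mem_cons_of_mem _ hm))
        (p := p - b n.2) (by linarith) (by linarith)
      have hout : v ∉ Fl b n := fun h =>
        hN.not_inFl (hVN n List.mem_cons_self) (fun m hm => hVN m (List.mem_cons_of_mem _ hm))
          hV.1 h hv
      exact ⟨v, inFl_cons.2 (Or.inr hv), by rw [pos_cons_out hout, hpv]; ring⟩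

omit [DecidableEq ι] in
theorem pos_append_left' {V W : List (K × ι)} {v : K} (hv : InFl b V v) :
    pos b (V ++ W) v = pos b V v := by
  induction V with
  | nil =>
    obtain ⟨n, hn, -⟩ := hv
    exact absurd hn List.not_mem_nil
  | cons n V ih =>
    rw [List.cons_append]
    by_cases h : v ∈ Fl b n
    · rw [pos_cons_in h, pos_cons_in h]
    · rw [pos_cons_out h, pos_cons_out h, ih ((inFl_cons.1 hv).resolve_left h)]

omit [DecidableEq ι] in
theorem pos_append_left {V W : List (K × ι)} (_hN : Dj b N) (_hV : (V ++ W).Nodup)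
    (_hVN : ∀ n ∈ V ++ W, n ∈ N) {v : K} (hv : InFl b V v) :
    pos b (V ++ W) v = pos b V v :=
  pos_append_left' hv

omit [DecidableEq ι] in
theorem pos_append_right' {V W : List (K × ι)} {v : K} (hv : ¬ InFl b V v) :
    pos b (V ++ W) v = (V.map (fun n => b n.2)).sum + pos b W v := by
  induction V with
  | nil => simp
  | cons n V ih =>
    rw [inFl_cons] at hv
    push Not at hv
    rw [List.cons_append, pos_cons_out hv.1, ih hv.2, List.map_cons, List.sum_cons]
    ring

omit [DecidableEq ι] in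
theorem not_inFl_of_right (hN : Dj b N) {V W : List (K × ι)} (hV : (V ++ W).Nodup)
    (hVN : ∀ n ∈ V ++ W, n ∈ N) {v : K} (hv : InFl b W v) : ¬ InFl b V v := by
  obtain ⟨n, hn, hvn⟩ := hv
  refine hN.not_inFl (hVN n (List.mem_append_right _ hn))
    (fun m hm => hVN m (List.mem_append_left _ hm)) (fun h => ?_) hvn
  exact (List.nodup_append.1 hV).2.2 n h n hn rfl

omit [DecidableEq ι] in
theorem pos_append_right {V W : List (K × ι)} (hN : Dj b N) (hV : (V ++ W).Nodup)
    (hVN : ∀ n ∈ V ++ W, n ∈ N) {v : K} (hv : InFl b W v) :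
    pos b (V ++ W) v = (V.map (fun n => b n.2)).sum + pos b W v :=
  pos_append_right' (not_inFl_of_right hN hV hVN hv)

open Classical in
/-- The floors `i` and `j`, glued in this order, are exchanged. -/
noncomputable def exF (b : ι → K) (i j : K × ι) (v : K) : K :=
  if v ∈ Fl b i then
    (if v - i.1 + b j.2 < b i.2 then v + b j.2 else j.1 + (v - i.1 + b j.2 - b i.2))
  else if v ∈ Fl b j then (if v - j.1 < b i.2 then i.1 + (v - j.1) else v - b i.2)
  else v

omit [DecidableEq ι] in
theorem exF_out {i j : K × ι} {v : K} (hi : v ∉ Fl b i) (hj : v ∉ Fl b j) :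
    exF b i j v = v := by
  rw [exF, if_neg hi, if_neg hj]

omit [DecidableEq ι] in
/-- The exchange in terms of positions. -/
theorem exF_spec (hb : ∀ a, 0 < b a) {i j : K × ι} (h : Disjoint (Fl b i) (Fl b j)) {v : K}
    (hv : v ∈ Fl b i ∨ v ∈ Fl b j) :
    (exF b i j v ∈ Fl b i ∨ exF b i j v ∈ Fl b j) ∧
      pos b [i, j] (exF b i j v) = pos b [j, i] v := by
  have hbi := hb i.2
  have hbj := hb j.2
  rcases hv with hv | hv
  · have hv' : v ∉ Fl b j := fun h' => Set.disjoint_left.1 h hv h'
    obtain ⟨h1, h2⟩ := mem_Fl.1 hv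
    rw [pos_cons_out hv', pos_cons_in hv, exF, if_pos hv]
    by_cases hc : v - i.1 + b j.2 < b i.2
    · rw [if_pos hc]
      have hm : v + b j.2 ∈ Fl b i := mem_Fl.2 ⟨by linarith, by linarith⟩
      exact ⟨Or.inl hm, by rw [pos_cons_in hm]; ring⟩
    · rw [if_neg hc]
      push Not at hc
      have hm : j.1 + (v - i.1 + b j.2 - b i.2) ∈ Fl b j :=
        mem_Fl.2 ⟨by linarith, by linarith⟩
      have hm' : j.1 + (v - i.1 + b j.2 - b i.2) ∉ Fl b i :=
        fun h' => Set.disjoint_left.1 h h' hm
      exact ⟨Or.inr hm, by rw [pos_cons_out hm', pos_cons_in hm]; ring⟩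
  · have hv' : v ∉ Fl b i := fun h' => Set.disjoint_left.1 h h' hv
    obtain ⟨h1, h2⟩ := mem_Fl.1 hv
    rw [pos_cons_in hv, exF, if_neg hv', if_pos hv]
    by_cases hc : v - j.1 < b i.2
    · rw [if_pos hc]
      have hm : i.1 + (v - j.1) ∈ Fl b i := mem_Fl.2 ⟨by linarith, by linarith⟩
      exact ⟨Or.inl hm, by rw [pos_cons_in hm]; ring⟩
    · rw [if_neg hc]
      push Not at hc
      have hm : v - b i.2 ∈ Fl b j := mem_Fl.2 ⟨by linarith, by linarith⟩
      have hm' : v - b i.2 ∉ Fl b i := fun h' => Set.disjoint_left.1 h h' hm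
      exact ⟨Or.inr hm, by rw [pos_cons_out hm', pos_cons_in hm]; ring⟩

omit [DecidableEq ι] in
theorem inFl_pair {i j : K × ι} {v : K} : InFl b [i, j] v ↔ v ∈ Fl b i ∨ v ∈ Fl b j := by
  rw [inFl_cons, inFl_cons]
  have : ¬ InFl b ([] : List (K × ι)) v := by
    rintro ⟨n, hn, -⟩
    exact absurd hn List.not_mem_nil
  tauto

omit [DecidableEq ι] in
theorem exF_exF {b : ι → K} (hb : ∀ a, 0 < b a) {i j : K × ι}
    (h : Disjoint (Fl b i) (Fl b j)) (v : K) : exF b i j (exF b j i v) = v := by
  by_cases hv : v ∈ Fl b i ∨ v ∈ Fl b j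
  · have h1 := exF_spec hb h.symm (v := v) hv.symm
    have h2 := exF_spec hb h (v := exF b j i v) h1.1.symm
    exact pos_inj' hb (inFl_pair.2 h2.1) (inFl_pair.2 hv) (h2.2.trans h1.2)
  · push Not at hv
    rw [exF_out hv.2 hv.1, exF_out hv.1 hv.2]

open Classical in
/-- The exchange as a permutation. -/
noncomputable def ex (b : ι → K) (i j : K × ι) : Equiv.Perm K :=
  if h : (∀ a, 0 < b a) ∧ Disjoint (Fl b i) (Fl b j) then
    ⟨exF b i j, exF b j i, exF_exF h.1 h.2.symm, exF_exF h.1 h.2⟩ else 1

omit [DecidableEq ι] in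
theorem ex_apply (hb : ∀ a, 0 < b a) {i j : K × ι} (h : Disjoint (Fl b i) (Fl b j)) (v : K) :
    ex b i j v = exF b i j v := by
  rw [ex, dif_pos ⟨hb, h⟩]
  rfl

omit [DecidableEq ι] in
theorem ex_out {i j : K × ι} {v : K} (hi : v ∉ Fl b i) (hj : v ∉ Fl b j) :
    ex b i j v = v := by
  by_cases h : (∀ a, 0 < b a) ∧ Disjoint (Fl b i) (Fl b j)
  · rw [ex_apply h.1 h.2, exF_out hi hj]
  · rw [ex, dif_neg h]
    rfl

omit [DecidableEq ι] in
theorem ex_inFl (hb : ∀ a, 0 < b a) (hN : Dj b N) {V : List (K × ι)} {i j : K × ι}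
    (hi : i ∈ V) (hj : j ∈ V) (hij : i ≠ j) (hVN : ∀ n ∈ V, n ∈ N) {v : K} (hv : InFl b V v) :
    InFl b V (ex b i j v) := by
  have hd := hN (hVN i hi) (hVN j hj) hij
  by_cases h : v ∈ Fl b i ∨ v ∈ Fl b j
  · rw [ex_apply hb hd]
    rcases (exF_spec hb hd h).1 with h1 | h1
    · exact ⟨i, hi, h1⟩
    · exact ⟨j, hj, h1⟩
  · push Not at h
    rwa [ex_out h.1 h.2]

omit [DecidableEq ι] in
/-- (S1) -/
theorem pos_ex (hb : ∀ a, 0 < b a) (hN : Dj b N) {A B : List (K × ι)} {i j : K × ι}
    (hV : (A ++ i :: j :: B).Nodup) (hVN : ∀ n ∈ A ++ i :: j :: B, n ∈ N) {v : K}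
    (hv : InFl b (A ++ i :: j :: B) v) :
    pos b (A ++ i :: j :: B) (ex b i j v) = pos b (A ++ j :: i :: B) v := by
  have hi : i ∈ N := hVN i (by simp)
  have hj : j ∈ N := hVN j (by simp)
  have hij : i ≠ j := by
    rintro rfl
    rw [List.nodup_append, List.nodup_cons] at hV
    exact hV.2.1.1 List.mem_cons_self
  have hiA : i ∉ A := fun h => (List.nodup_append.1 hV).2.2 i h i List.mem_cons_self rfl
  have hjA : j ∉ A := fun h =>
    (List.nodup_append.1 hV).2.2 j h j (List.mem_cons_of_mem _ List.mem_cons_self) rfl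
  have hAN : ∀ m ∈ A, m ∈ N := fun m hm => hVN m (List.mem_append_left _ hm)
  have hd := hN hi hj hij
  by_cases h : v ∈ Fl b i ∨ v ∈ Fl b j
  · have hs := exF_spec hb hd h
    rw [ex_apply hb hd]
    have h1 : ¬ InFl b A v := by
      rcases h with h | h
      · exact hN.not_inFl hi hAN hiA h
      · exact hN.not_inFl hj hAN hjA h
    have h2 : ¬ InFl b A (exF b i j v) := by
      rcases hs.1 with h | h
      · exact hN.not_inFl hi hAN hiA h
      · exact hN.not_inFl hj hAN hjA h
    rw [pos_append_right' h1, pos_append_right' h2]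
    have h3 : i :: j :: B = [i, j] ++ B := rfl
    have h4 : j :: i :: B = [j, i] ++ B := rfl
    rw [h3, h4, pos_append_left' (inFl_pair.2 hs.1), pos_append_left' (inFl_pair.2 h.symm), hs.2]
  · push Not at h
    rw [ex_out h.1 h.2]
    by_cases h1 : InFl b A v
    · rw [pos_append_left' h1, pos_append_left' h1]
    · rw [pos_append_right' h1, pos_append_right' h1, pos_cons_out h.1, pos_cons_out h.2,
        pos_cons_out h.2, pos_cons_out h.1]
      ring

omit [DecidableEq ι] in
/-- The exchange of two floors of the same type moves the labels. -/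
theorem ex_swap (hb : ∀ a, 0 < b a) {i j : K × ι} (hd : Disjoint (Fl b i) (Fl b j))
    (ht : i.2 = j.2) {v : K} (hv : v ∈ Fl b i) :
    ex b i j v = j.1 + (v - i.1) ∧ ex b j i v = j.1 + (v - i.1) := by
  have hv' : v ∉ Fl b j := fun h' => Set.disjoint_left.1 hd hv h'
  obtain ⟨h1, h2⟩ := mem_Fl.1 hv
  constructor
  · rw [ex_apply hb hd, exF, if_pos hv, if_neg (by rw [ht]; linarith), ht]
    ring
  · rw [ex_apply hb hd.symm, exF, if_neg hv', if_pos hv, if_pos (by rw [← ht]; linarith)]

omit [DecidableEq ι] in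
theorem ex_symm_of_type (hb : ∀ a, 0 < b a) {i j : K × ι} (hd : Disjoint (Fl b i) (Fl b j))
    (ht : i.2 = j.2) : ex b i j = ex b j i := by
  ext v
  by_cases hi : v ∈ Fl b i
  · rw [(ex_swap hb hd ht hi).1, (ex_swap hb hd ht hi).2]
  · by_cases hj : v ∈ Fl b j
    · rw [(ex_swap hb hd.symm ht.symm hj).1, (ex_swap hb hd.symm ht.symm hj).2]
    · rw [ex_out hi hj, ex_out hj hi]

/-- Positions under the exchange of two floors of the same type. -/
theorem pos_swap (hb : ∀ a, 0 < b a) (hN : Dj b N) {V : List (K × ι)} {i j : K × ι}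
    (hi : i ∈ N) (hj : j ∈ N) (hij : i ≠ j) (ht : i.2 = j.2) (hVN : ∀ n ∈ V, n ∈ N) (v : K) :
    pos b (V.map (Equiv.swap i j)) (ex b i j v) = pos b V v := by
  have hd := hN hi hj hij
  induction V with
  | nil => rfl
  | cons n V ih =>
    have ih' := ih fun m hm => hVN m (List.mem_cons_of_mem _ hm)
    have hn := hVN n List.mem_cons_self
    rw [List.map_cons]
    by_cases hni : n = i
    · subst hni
      rw [Equiv.swap_apply_left]
      by_cases hv : v ∈ Fl b n
      · have h1 := (ex_swap hb hd ht hv).1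
        obtain ⟨h2, h3⟩ := mem_Fl.1 hv
        have hm : ex b n j v ∈ Fl b j := by
          rw [h1]
          exact mem_Fl.2 ⟨by linarith, by rw [← ht]; linarith⟩
        rw [pos_cons_in hm, pos_cons_in hv, h1]
        ring
      · have hm : ex b n j v ∉ Fl b j := by
          intro hm
          by_cases hvj : v ∈ Fl b j
          · have h1 := (ex_swap hb hd.symm ht.symm hvj).2
            obtain ⟨h2, h3⟩ := mem_Fl.1 hvj
            have hm' : ex b n j v ∈ Fl b n := by
              rw [h1]
              exact mem_Fl.2 ⟨by linarith, by rw [ht]; linarith⟩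
            exact Set.disjoint_left.1 hd hm' hm
          · rw [ex_out hv hvj] at hm
            exact hvj hm
        rw [pos_cons_out hm, pos_cons_out hv, ih', ht]
    · by_cases hnj : n = j
      · subst hnj
        rw [Equiv.swap_apply_right]
        by_cases hv : v ∈ Fl b n
        · have h1 := (ex_swap hb hd.symm ht.symm hv).2
          obtain ⟨h2, h3⟩ := mem_Fl.1 hv
          have hm : ex b i n v ∈ Fl b i := by
            rw [h1]
            exact mem_Fl.2 ⟨by linarith, by rw [ht]; linarith⟩
          rw [pos_cons_in hm, pos_cons_in hv, h1]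
          ring
        · have hm : ex b i n v ∉ Fl b i := by
            intro hm
            by_cases hvi : v ∈ Fl b i
            · have h1 := (ex_swap hb hd ht hvi).1
              obtain ⟨h2, h3⟩ := mem_Fl.1 hvi
              have hm' : ex b i n v ∈ Fl b n := by
                rw [h1]
                exact mem_Fl.2 ⟨by linarith, by rw [← ht]; linarith⟩
              exact Set.disjoint_left.1 hd hm hm'
            · rw [ex_out hvi hv] at hm
              exact hvi hm
          rw [pos_cons_out hm, pos_cons_out hv, ih', ht]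
      · rw [Equiv.swap_apply_of_ne_of_ne hni hnj]
        by_cases hv : v ∈ Fl b n
        · have hvi := hN.not_mem hn hi hni hv
          have hvj := hN.not_mem hn hj hnj hv
          rw [ex_out hvi hvj, pos_cons_in hv, pos_cons_in hv]
        · have hm : ex b i j v ∉ Fl b n := by
            intro hm
            by_cases h : v ∈ Fl b i ∨ v ∈ Fl b j
            · have hs := (exF_spec hb hd h).1
              rw [← ex_apply hb hd] at hs
              rcases hs with hs | hs
              · exact hN.not_mem hi hn (Ne.symm hni) hs hm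
              · exact hN.not_mem hj hn (Ne.symm hnj) hs hm
            · push Not at h
              rw [ex_out h.1 h.2] at hm
              exact hv hm
          rw [pos_cons_out hm, pos_cons_out hv, ih']

/-- (S3) -/
theorem ex_tyb (hb : ∀ a, 0 < b a) (hN : Dj b N) : TYB N Prod.snd (ex b) where
  inv := by
    intro i hi j hj hij
    have hd := hN hi hj hij
    ext v
    show ex b i j (ex b j i v) = v
    rw [ex_apply hb hd, ex_apply hb hd.symm, exF_exF hb hd]
  comm := by
    intro i hi j hj k hk l hl hij hkl hik hil hjk hjl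
    have hnd : ∀ n ∈ [i, j, k, l], n ∈ N := by
      intro n hn
      simp only [List.mem_cons, List.not_mem_nil, or_false] at hn
      rcases hn with rfl | rfl | rfl | rfl <;> assumption
    have hnd1 : ∀ n ∈ [i, j, l, k], n ∈ N := by
      intro n hn
      simp only [List.mem_cons, List.not_mem_nil, or_false] at hn
      rcases hn with rfl | rfl | rfl | rfl <;> assumption
    have hnd2 : ∀ n ∈ [j, i, k, l], n ∈ N := by
      intro n hn
      simp only [List.mem_cons, List.not_mem_nil, or_false] at hn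
      rcases hn with rfl | rfl | rfl | rfl <;> assumption
    have p1 : [i, j, k, l].Perm [i, j, l, k] := by
      exact ((List.Perm.swap _ _ _).cons _).cons _
    have p2 : [i, j, k, l].Perm [j, i, k, l] := List.Perm.swap _ _ _
    have nd : [i, j, k, l].Nodup := by
      simp only [List.nodup_cons, List.mem_cons, List.not_mem_nil, or_false, not_or,
        List.nodup_nil, and_true, not_false_eq_true]
      exact ⟨⟨hij, hik, hil⟩, ⟨hjk, hjl⟩, hkl⟩
    have nd1 := p1.nodup_iff.1 nd
    have nd2 := p2.nodup_iff.1 nd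
    ext v
    show ex b i j (ex b k l v) = ex b k l (ex b i j v)
    by_cases hv : InFl b [i, j, k, l] v
    · have e1 := ex_inFl hb hN (by simp) (by simp) hkl hnd hv (i := k) (j := l)
      have e2 := ex_inFl hb hN (by simp) (by simp) hij hnd hv (i := i) (j := j)
      have e3 := ex_inFl hb hN (by simp) (by simp) hij hnd e1 (i := i) (j := j)
      have e4 := ex_inFl hb hN (by simp) (by simp) hkl hnd e2 (i := k) (j := l)
      refine pos_inj' hb e3 e4 ?_
      have q1 := pos_ex hb hN (A := []) (B := [k, l]) (i := i) (j := j) nd hnd e1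
      have q2 := pos_ex hb hN (A := [j, i]) (B := []) (i := k) (j := l) nd2 hnd2
        ((inFl_perm p2).1 hv)
      have q3 := pos_ex hb hN (A := [i, j]) (B := []) (i := k) (j := l) nd hnd e2
      have q4 := pos_ex hb hN (A := []) (B := [l, k]) (i := i) (j := j) nd1 hnd1
        ((inFl_perm p1).1 hv)
      simp only [List.nil_append, List.cons_append] at q1 q2 q3 q4
      rw [q1, q2, q3, q4]
    · have h1 : v ∉ Fl b i := fun h => hv ⟨i, by simp, h⟩
      have h2 : v ∉ Fl b j := fun h => hv ⟨j, by simp, h⟩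
      have h3 : v ∉ Fl b k := fun h => hv ⟨k, by simp, h⟩
      have h4 : v ∉ Fl b l := fun h => hv ⟨l, by simp, h⟩
      rw [ex_out h3 h4, ex_out h1 h2, ex_out h3 h4]
  yb := by
    intro i hi j hj k hk hij hik hjk
    have hmem : ∀ V : List (K × ι), [i, j, k].Perm V → ∀ n ∈ V, n ∈ N := by
      intro V hV n hn
      have hn' := hV.mem_iff.2 hn
      simp only [List.mem_cons, List.not_mem_nil, or_false] at hn'
      rcases hn' with rfl | rfl | rfl <;> assumption
    have nd : [i, j, k].Nodup := by
      simp only [List.nodup_cons, List.mem_cons, List.not_mem_nil, or_false, not_or,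
        List.nodup_nil, and_true, not_false_eq_true]
      exact ⟨⟨hij, hik⟩, hjk⟩
    have p1 : [i, j, k].Perm [j, i, k] := List.Perm.swap _ _ _
    have p2 : [i, j, k].Perm [j, k, i] := p1.trans ((List.Perm.swap _ _ _).cons _)
    have p3 : [i, j, k].Perm [i, k, j] := (List.Perm.swap _ _ _).cons _
    have p4 : [i, j, k].Perm [k, i, j] := p3.trans (List.Perm.swap _ _ _)
    ext v
    show ex b i j (ex b i k (ex b j k v)) = ex b j k (ex b i k (ex b i j v))
    by_cases hv : InFl b [i, j, k] v
    · have hnd := hmem _ (List.Perm.refl _)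
      have e1 := ex_inFl hb hN (by simp) (by simp) hjk hnd hv (i := j) (j := k)
      have e2 := ex_inFl hb hN (by simp) (by simp) hik hnd e1 (i := i) (j := k)
      have e3 := ex_inFl hb hN (by simp) (by simp) hij hnd e2 (i := i) (j := j)
      have f1 := ex_inFl hb hN (by simp) (by simp) hij hnd hv (i := i) (j := j)
      have f2 := ex_inFl hb hN (by simp) (by simp) hik hnd f1 (i := i) (j := k)
      have f3 := ex_inFl hb hN (by simp) (by simp) hjk hnd f2 (i := j) (j := k)
      refine pos_inj' hb e3 f3 ?_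
      have q1 := pos_ex hb hN (A := []) (B := [k]) (i := i) (j := j) nd hnd e2
      have q2 := pos_ex hb hN (A := [j]) (B := []) (i := i) (j := k) (p1.nodup_iff.1 nd)
        (hmem _ p1) ((inFl_perm p1).1 e1)
      have q3 := pos_ex hb hN (A := []) (B := [i]) (i := j) (j := k) (p2.nodup_iff.1 nd)
        (hmem _ p2) ((inFl_perm p2).1 hv)
      have r1 := pos_ex hb hN (A := [i]) (B := []) (i := j) (j := k) nd hnd f2
      have r2 := pos_ex hb hN (A := []) (B := [j]) (i := i) (j := k) (p3.nodup_iff.1 nd)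
        (hmem _ p3) ((inFl_perm p3).1 f1)
      have r3 := pos_ex hb hN (A := [k]) (B := []) (i := i) (j := j) (p4.nodup_iff.1 nd)
        (hmem _ p4) ((inFl_perm p4).1 hv)
      simp only [List.nil_append, List.cons_append] at q1 q2 q3 r1 r2 r3
      rw [q1, q2, q3, r1, r2, r3]
    · have h1 : v ∉ Fl b i := fun h => hv ⟨i, by simp, h⟩
      have h2 : v ∉ Fl b j := fun h => hv ⟨j, by simp, h⟩
      have h3 : v ∉ Fl b k := fun h => hv ⟨k, by simp, h⟩
      rw [ex_out h2 h3, ex_out h1 h3, ex_out h1 h2, ex_out h1 h3, ex_out h2 h3]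
  sym := by
    intro i hi j hj hij ht
    exact ex_symm_of_type hb (hN hi hj hij) ht
  conj := by
    intro i hi j hj k hk hij hik hjk ht
    have hmem : ∀ V : List (K × ι), [i, j, k].Perm V → ∀ n ∈ V, n ∈ N := by
      intro V hV n hn
      have hn' := hV.mem_iff.2 hn
      simp only [List.mem_cons, List.not_mem_nil, or_false] at hn'
      rcases hn' with rfl | rfl | rfl <;> assumption
    have nd : [i, j, k].Nodup := by
      simp only [List.nodup_cons, List.mem_cons, List.not_mem_nil, or_false, not_or,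
        List.nodup_nil, and_true, not_false_eq_true]
      exact ⟨⟨hij, hik⟩, hjk⟩
    have p1 : [i, j, k].Perm [j, i, k] := List.Perm.swap _ _ _
    have p2 : [i, j, k].Perm [j, k, i] := p1.trans ((List.Perm.swap _ _ _).cons _)
    have p3 : [i, j, k].Perm [i, k, j] := (List.Perm.swap _ _ _).cons _
    ext v
    show ex b i j (ex b i k v) = ex b j k (ex b i j v)
    by_cases hv : InFl b [i, j, k] v
    · have hnd := hmem _ (List.Perm.refl _)
      have e1 := ex_inFl hb hN (by simp) (by simp) hik hnd hv (i := i) (j := k)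
      have e2 := ex_inFl hb hN (by simp) (by simp) hij hnd e1 (i := i) (j := j)
      have f1 := ex_inFl hb hN (by simp) (by simp) hij hnd hv (i := i) (j := j)
      have f2 := ex_inFl hb hN (by simp) (by simp) hjk hnd f1 (i := j) (j := k)
      refine pos_inj' hb ((inFl_perm p2).1 e2) ((inFl_perm p2).1 f2) ?_
      have q1 := pos_swap hb hN hi hj hij ht (V := [i, k, j]) (hmem _ p3) (ex b i k v)
      have q2 := pos_ex hb hN (A := []) (B := [j]) (i := i) (j := k) (p3.nodup_iff.1 nd)
        (hmem _ p3) ((inFl_perm p3).1 hv)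
      have r1 := pos_ex hb hN (A := []) (B := [i]) (i := j) (j := k) (p2.nodup_iff.1 nd)
        (hmem _ p2) ((inFl_perm p2).1 f1)
      have r2 := pos_swap hb hN hi hj hij ht (V := [k, i, j])
        (hmem _ (p3.trans (List.Perm.swap _ _ _))) v
      simp only [List.map_cons, List.map_nil, Equiv.swap_apply_left, Equiv.swap_apply_right,
        Equiv.swap_apply_of_ne_of_ne (Ne.symm hik) (Ne.symm hjk), List.nil_append] at q1 q2 r1 r2
      rw [q1, q2, r1, r2]
    · have h1 : v ∉ Fl b i := fun h => hv ⟨i, by simp, h⟩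
      have h2 : v ∉ Fl b j := fun h => hv ⟨j, by simp, h⟩
      have h3 : v ∉ Fl b k := fun h => hv ⟨k, by simp, h⟩
      rw [ex_out h1 h3, ex_out h1 h2, ex_out h2 h3]

theorem takeWhile_of_not_mem {L : Type} [DecidableEq L] {A B : List L} {a : L} (h : a ∉ A) :
    (A ++ a :: B).takeWhile (fun c => c ≠ a) = A := by
  induction A with
  | nil => simp
  | cons c A ih =>
    rw [List.mem_cons, not_or] at h
    rw [List.cons_append, List.takeWhile_cons, if_pos (by simpa using Ne.symm h.1), ih h.2]

theorem erase_of_not_mem {L : Type} [DecidableEq L] {A B : List L} {a : L} (h : a ∉ A) :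
    (A ++ a :: B).erase a = A ++ B := by
  rw [List.erase_append_right _ h, List.erase_cons_head]

omit [DecidableEq ι] in
theorem pass_ex (hb : ∀ a, 0 < b a) (hN : Dj b N) {a : K × ι} {A : List (K × ι)} :
    ∀ (Q B : List (K × ι)), (Q ++ a :: A ++ B).Nodup → (∀ n ∈ Q ++ a :: A ++ B, n ∈ N) →
      ∀ v, InFl b (Q ++ a :: A ++ B) v →
        InFl b (Q ++ a :: A ++ B) (pass (ex b) a A v) ∧
        pos b (Q ++ a :: A ++ B) (pass (ex b) a A v) = pos b (Q ++ A ++ a :: B) v := by
  induction A with
  | nil =>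
    intro Q B hnd hm v hv
    have : pass (ex b) a [] v = v := rfl
    rw [this]
    refine ⟨hv, ?_⟩
    rw [List.append_assoc Q [] _, List.nil_append, List.append_assoc]
    rfl
  | cons c A ih =>
    intro Q B hnd hm v hv
    have hpass : pass (ex b) a (c :: A) v = ex b a c (pass (ex b) a A v) := by
      rw [IET.pass, List.map_cons, List.prod_cons]
      rfl
    rw [hpass]
    have hp : (Q ++ a :: c :: A ++ B).Perm ((Q ++ [c]) ++ a :: A ++ B) := by
      have h1 : (Q ++ [c]) ++ a :: A ++ B = Q ++ c :: a :: A ++ B := by simp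
      rw [h1]
      exact ((List.Perm.swap _ _ _).append_left Q).append_right B
    have h0 := ih (Q ++ [c]) B (hp.nodup_iff.1 hnd) (fun n hn => hm n (hp.mem_iff.2 hn)) v
      ((inFl_perm hp).1 hv)
    have hin := (inFl_perm hp).2 h0.1
    have hac : a ≠ c := by
      rintro rfl
      rw [List.append_assoc, List.nodup_append] at hnd
      have := hnd.2.1
      rw [List.cons_append, List.nodup_cons] at this
      exact this.1 (by simp)
    refine ⟨ex_inFl hb hN (by simp) (by simp) hac hm hin, ?_⟩
    have h1 : Q ++ a :: c :: A ++ B = Q ++ a :: c :: (A ++ B) := by simp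
    rw [h1] at hnd hm hin ⊢
    rw [pos_ex hb hN hnd hm hin]
    have h2 : Q ++ c :: a :: (A ++ B) = (Q ++ [c]) ++ a :: A ++ B := by simp
    rw [h2, h0.2]
    simp

theorem X_ex_main (hb : ∀ a, 0 < b a) (hN : Dj b N) {V : List (K × ι)} :
    ∀ {W : List (K × ι)}, V.Nodup → (∀ n ∈ V, n ∈ N) → V.Perm W → ∀ v,
      (InFl b V v → InFl b V (X (ex b) V W v) ∧ pos b V (X (ex b) V W v) = pos b W v) ∧
      (¬ InFl b V v → X (ex b) V W v = v) := by
  induction V with
  | nil =>
    intro W _ _ hp v
    have hW : W = [] := hp.symm.eq_nil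
    subst hW
    exact ⟨fun h => ⟨h, rfl⟩, fun _ => rfl⟩
  | cons a V ih =>
    intro W hnd hm hp v
    have haW : a ∈ W := hp.mem_iff.1 List.mem_cons_self
    have hWnd : W.Nodup := hp.nodup_iff.1 hnd
    obtain ⟨A, B, rfl⟩ := List.append_of_mem haW
    have haA : a ∉ A := fun h => (List.nodup_append.1 hWnd).2.2 a h a List.mem_cons_self rfl
    have hX : X (ex b) (a :: V) (A ++ a :: B) v = X (ex b) V (A ++ B) (pass (ex b) a A v) := by
      rw [X, takeWhile_of_not_mem haA, erase_of_not_mem haA]
      rfl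
    have hp1 : (a :: V).Perm (a :: (A ++ B)) := hp.trans List.perm_middle
    have hp2 : V.Perm (A ++ B) := hp1.cons_inv
    rw [List.nodup_cons] at hnd
    have hVN : ∀ n ∈ V, n ∈ N := fun n hn => hm n (List.mem_cons_of_mem _ hn)
    have haN : a ∈ N := hm a List.mem_cons_self
    have hpe : ([] ++ a :: A ++ B).Perm (a :: V) := hp1.symm
    have key := pass_ex hb hN (a := a) (A := A) [] B
      (hpe.nodup_iff.2 (List.nodup_cons.2 hnd)) (fun n hn => hm n (hpe.mem_iff.1 hn))
    rw [hX]
    constructor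
    · intro hv
      obtain ⟨k1, k2⟩ := key v ((inFl_perm hpe).2 hv)
      have k1' := (inFl_perm hpe).1 k1
      have k3 : pos b (a :: (A ++ B)) (pass (ex b) a A v) = pos b (A ++ a :: B) v := by
        simpa using k2
      by_cases hu : pass (ex b) a A v ∈ Fl b a
      · have hu' : ¬ InFl b V (pass (ex b) a A v) := hN.not_inFl haN hVN hnd.1 hu
        rw [(ih hnd.2 hVN hp2 _).2 hu']
        refine ⟨k1', ?_⟩
        rw [← k3, pos_cons_in hu, pos_cons_in hu]
      · have hu' := (inFl_cons.1 k1').resolve_left hu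
        obtain ⟨l1, l2⟩ := (ih hnd.2 hVN hp2 _).1 hu'
        refine ⟨inFl_cons.2 (Or.inr l1), ?_⟩
        have hout : X (ex b) V (A ++ B) (pass (ex b) a A v) ∉ Fl b a := fun h =>
          hN.not_inFl haN hVN hnd.1 h l1
        rw [pos_cons_out hout, l2, ← k3, pos_cons_out hu]
    · intro hv
      have hfix : pass (ex b) a A v = v := by
        have hA : ∀ c ∈ A, v ∉ Fl b c := fun c hc h =>
          hv ⟨c, hp.mem_iff.2 (List.mem_append_left _ hc), h⟩
        have ha : v ∉ Fl b a := fun h => hv ⟨a, List.mem_cons_self, h⟩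
        clear key hX hp hp1 hp2 hpe haW hWnd haA
        induction A with
        | nil => rfl
        | cons c A ihA =>
          have hpass : pass (ex b) a (c :: A) v = ex b a c (pass (ex b) a A v) := by
            rw [IET.pass, List.map_cons, List.prod_cons]
            rfl
          rw [hpass, ihA fun c' hc' => hA c' (List.mem_cons_of_mem _ hc'),
            ex_out ha (hA c List.mem_cons_self)]
      rw [hfix]
      exact (ih hnd.2 hVN hp2 _).2 fun h => hv (inFl_cons.2 (Or.inr h))

theorem X_ex_inFl (hb : ∀ a, 0 < b a) (hN : Dj b N) {V W : List (K × ι)} (hV : V.Nodup)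
    (hVN : ∀ n ∈ V, n ∈ N) (h : V.Perm W) {v : K} (hv : InFl b V v) :
    InFl b V (X (ex b) V W v) :=
  ((X_ex_main hb hN hV hVN h v).1 hv).1

/-- (S4) -/
theorem pos_X_ex (hb : ∀ a, 0 < b a) (hN : Dj b N) {V W : List (K × ι)} (hV : V.Nodup)
    (hVN : ∀ n ∈ V, n ∈ N) (h : V.Perm W) {v : K} (hv : InFl b V v) :
    pos b V (X (ex b) V W v) = pos b W v :=
  ((X_ex_main hb hN hV hVN h v).1 hv).2

theorem X_ex_fix (hb : ∀ a, 0 < b a) (hN : Dj b N) {V W : List (K × ι)} (hV : V.Nodup)
    (hVN : ∀ n ∈ V, n ∈ N) (h : V.Perm W) {v : K} (hv : ¬ InFl b V v) :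
    X (ex b) V W v = v :=
  (X_ex_main hb hN hV hVN h v).2 hv

omit [DecidableEq ι] in
/-- (S5) -/
theorem eq_of_pos_eq (hb : ∀ a, 0 < b a) (hN : Dj b N) {V W : List (K × ι)} (hV : V.Nodup)
    (hVN : ∀ n ∈ V, n ∈ N) (h : V.Perm W) (hp : ∀ v, InFl b V v → pos b V v = pos b W v) :
    V = W := by
  induction V generalizing W with
  | nil => exact (h.symm.eq_nil).symm
  | cons a V ih =>
    have hbd := hb a.2
    have ha1 : a.1 ∈ Fl b a := mem_Fl.2 ⟨le_rfl, by linarith⟩
    cases W with
    | nil => exact absurd h.eq_nil (by simp)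
    | cons c W =>
      have hac : a = c := by
        by_contra hne
        have h1 := hp a.1 ⟨a, List.mem_cons_self, ha1⟩
        have hout : a.1 ∉ Fl b c :=
          hN.not_mem (hVN a List.mem_cons_self) (hVN c (h.mem_iff.2 List.mem_cons_self)) hne ha1
        rw [pos_cons_in ha1, pos_cons_out hout] at h1
        have h2 := pos_nonneg hb W a.1
        have h3 := hb c.2
        linarith
      subst hac
      rw [List.nodup_cons] at hV
      have hVN' : ∀ n ∈ V, n ∈ N := fun n hn => hVN n (List.mem_cons_of_mem _ hn)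
      rw [ih hV.2 hVN' h.cons_inv fun v hv => ?_]
      have hout : v ∉ Fl b a := fun h' =>
        hN.not_inFl (hVN a List.mem_cons_self) hVN' hV.1 h' hv
      have h1 := hp v (inFl_cons.2 (Or.inr hv))
      rw [pos_cons_out hout, pos_cons_out hout] at h1
      linarith

/-- Floors of a word, from `x` on. -/
def cuts (b : ι → K) : K → List ι → List (K × ι)
  | _, [] => []
  | x, a :: T => (x, a) :: cuts b (x + b a) T

omit [DecidableEq ι] in
theorem cuts_snd (x : K) (T : List ι) : (cuts b x T).map Prod.snd = T := by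
  induction T generalizing x with
  | nil => rfl
  | cons a T ih => rw [cuts, List.map_cons, ih]

omit [DecidableEq ι] in
theorem sum_nonneg_of_pos (hb : ∀ a, 0 < b a) (T : List ι) : 0 ≤ (T.map b).sum := by
  apply List.sum_nonneg
  intro y hy
  obtain ⟨m, -, rfl⟩ := List.mem_map.1 hy
  exact (hb m).le

omit [DecidableEq ι] in
theorem inFl_cuts (hb : ∀ a, 0 < b a) (x : K) (T : List ι) (v : K) :
    InFl b (cuts b x T) v ↔ x ≤ v ∧ v < x + (T.map b).sum := by
  induction T generalizing x with
  | nil =>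
    rw [cuts, List.map_nil, List.sum_nil]
    constructor
    · rintro ⟨n, hn, -⟩
      exact absurd hn List.not_mem_nil
    · rintro ⟨h1, h2⟩
      linarith
  | cons a T ih =>
    rw [cuts, inFl_cons, ih, mem_Fl, List.map_cons, List.sum_cons]
    have h1 := hb a
    have h2 := sum_nonneg_of_pos hb T
    constructor
    · rintro (⟨h3, h4⟩ | ⟨h3, h4⟩)
      · exact ⟨h3, by simp only at h4; linarith⟩
      · exact ⟨by linarith, by linarith⟩
    · rintro ⟨h3, h4⟩
      by_cases h5 : v < x + b a
      · exact Or.inl ⟨h3, h5⟩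
      · exact Or.inr ⟨not_lt.1 h5, by linarith⟩

omit [DecidableEq ι] in
theorem mem_cuts_le (hb : ∀ a, 0 < b a) {x : K} {T : List ι} {n : K × ι}
    (hn : n ∈ cuts b x T) : x ≤ n.1 := by
  have h1 : n.1 ∈ Fl b n := mem_Fl.2 ⟨le_rfl, by have := hb n.2; linarith⟩
  exact ((inFl_cuts hb x T n.1).1 ⟨n, hn, h1⟩).1

omit [DecidableEq ι] in
theorem cuts_nodup (hb : ∀ a, 0 < b a) (x : K) (T : List ι) : (cuts b x T).Nodup := by
  induction T generalizing x with
  | nil => exact List.nodup_nil
  | cons a T ih =>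
    rw [cuts, List.nodup_cons]
    refine ⟨fun h => ?_, ih _⟩
    have h1 : x + b a ≤ x := mem_cuts_le hb h
    have := hb a
    linarith

omit [DecidableEq ι] in
theorem cuts_dj (hb : ∀ a, 0 < b a) (x : K) (T : List ι) : Dj b {n | n ∈ cuts b x T} := by
  induction T generalizing x with
  | nil =>
    intro n hn
    exact absurd hn List.not_mem_nil
  | cons a T ih =>
    have key : ∀ n ∈ cuts b (x + b a) T, Disjoint (Fl b (x, a)) (Fl b n) := by
      intro n hn
      rw [Set.disjoint_left]
      intro v hv hv'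
      have h1 := mem_cuts_le hb hn
      have h2 := (mem_Fl.1 hv).2
      have h3 := (mem_Fl.1 hv').1
      simp only at h2
      linarith
    intro n hn m hm hnm
    change n ∈ cuts b x (a :: T) at hn
    change m ∈ cuts b x (a :: T) at hm
    rw [cuts, List.mem_cons] at hn hm
    rcases hn with rfl | hn
    · rcases hm with rfl | hm
      · exact absurd rfl hnm
      · exact key m hm
    · rcases hm with rfl | hm
      · exact (key n hn).symm
      · exact ih (x + b a) hn hm hnm

omit [DecidableEq ι] in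
theorem pos_cuts (hb : ∀ a, 0 < b a) (x : K) (T : List ι) {v : K}
    (hv : InFl b (cuts b x T) v) : pos b (cuts b x T) v = v - x := by
  induction T generalizing x with
  | nil =>
    obtain ⟨n, hn, -⟩ := hv
    exact absurd hn List.not_mem_nil
  | cons a T ih =>
    rw [cuts] at hv ⊢
    by_cases h : v ∈ Fl b (x, a)
    · rw [pos_cons_in h]
    · rw [pos_cons_out h, ih (x + b a) ((inFl_cons.1 hv).resolve_left h)]
      simp only
      ring

end Pool.Agent.IEF
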