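import Pool.Agent.IET.Lev2
import Pool.Agent.IEF.Sem

/-!
# Subdivision of real floors
-/

set_option autoImplicit false
set_option linter.unusedSectionVars false

namespace Pool.Agent.IEF

open Pool.Agent.IET

variable {K : Type} [Field K] [LinearOrder K] [IsStrictOrderedRing K]

variable {ι : Type} [DecidableEq ι]

/-- The subdivision of the floor of `n`, its type is replaced by a word. -/
def sbd (b' : ι → K) (s : ι → List ι) (n : K × ι) : List (K × ι) := cuts b' n.1 (s n.2)

omit [DecidableEq ι] in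
theorem cuts_append (b : ι → K) : ∀ (x : K) (S T : List ι),
    cuts b x (S ++ T) = cuts b x S ++ cuts b (x + (S.map b).sum) T
  | x, [], T => by simp [cuts]
  | x, a :: S, T => by
    simp only [List.cons_append, cuts, List.map_cons, List.sum_cons, cuts_append b _ S T]
    rw [add_assoc]

omit [DecidableEq ι] in
theorem cuts_sumL (b : ι → K) : ∀ (x : K) (T : List ι),
    ((cuts b x T).map fun n => b n.2).sum = (T.map b).sum
  | x, [] => rfl
  | x, a :: T => by
    rw [cuts, List.map_cons, List.sum_cons, List.map_cons, List.sum_cons, cuts_sumL b _ T]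

omit [DecidableEq ι] in
theorem cuts_flatMap {b b' : ι → K} {s : ι → List ι} (hs : ∀ a, ((s a).map b').sum = b a) :
    ∀ (x : K) (T : List ι), (cuts b x T).flatMap (sbd b' s) = cuts b' x (T.flatMap s)
  | x, [] => rfl
  | x, a :: T => by
    rw [cuts, List.flatMap_cons, List.flatMap_cons, cuts_append, hs, cuts_flatMap hs]
    rfl

omit [DecidableEq ι] in
theorem sbd_sbd {b b' : ι → K} {s s' : ι → List ι} (hs : ∀ a, ((s' a).map b').sum = b a)
    (n : K × ι) : (sbd b s n).flatMap (sbd b' s') = sbd b' (fun a => (s a).flatMap s') n :=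
  cuts_flatMap hs _ _

variable {b b' : ι → K} {s : ι → List ι} {N N' : Set (K × ι)}

/-- The points of the subdivision of a floor. -/
theorem inFl_sbd (hb' : ∀ a, 0 < b' a) (hs : ∀ a, ((s a).map b').sum = b a) (n : K × ι) (v : K) :
    InFl b' (sbd b' s n) v ↔ v ∈ Fl b n := by
  rw [sbd, inFl_cuts hb', hs]
  rfl

theorem inFl_flatMap (hb' : ∀ a, 0 < b' a) (hs : ∀ a, ((s a).map b').sum = b a)
    (V : List (K × ι)) (v : K) : InFl b' (V.flatMap (sbd b' s)) v ↔ InFl b V v := by
  constructor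
  · rintro ⟨m, hm, hv⟩
    obtain ⟨n, hn, hm⟩ := List.mem_flatMap.1 hm
    exact ⟨n, hn, (inFl_sbd hb' hs n v).1 ⟨m, hm, hv⟩⟩
  · rintro ⟨n, hn, hv⟩
    obtain ⟨m, hm, hv⟩ := (inFl_sbd hb' hs n v).2 hv
    exact ⟨m, List.mem_flatMap.2 ⟨n, hn, hm⟩, hv⟩

/-- The subdivision is a block map. -/
theorem blk_sbd (hb' : ∀ a, 0 < b' a) (hN : Dj b N)
    (hs : ∀ a, ((s a).map b').sum = b a) (hN' : ∀ n ∈ N, ∀ m ∈ sbd b' s n, m ∈ N') :
    Blk N N' Prod.snd Prod.snd (sbd b' s) := by
  refine ⟨hN', fun n _ => cuts_nodup hb' _ _, ?_, ?_⟩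
  · intro n hn m hm hnm c hc hc'
    have h1 : c.1 ∈ Fl b' c := ⟨le_refl _, by linarith [hb' c.2]⟩
    have h2 : c.1 ∈ Fl b n := (inFl_sbd hb' hs n _).1 ⟨c, hc, h1⟩
    have h3 : c.1 ∈ Fl b m := (inFl_sbd hb' hs m _).1 ⟨c, hc', h1⟩
    exact Set.disjoint_left.1 (hN hn hm hnm) h2 h3
  · intro n _ m _ h
    rw [sbd, sbd, cuts_snd, cuts_snd, h]

omit [DecidableEq ι] in
theorem sum_flatL (hs : ∀ a, ((s a).map b').sum = b a) (V : List (K × ι)) :
    ((V.flatMap (sbd b' s)).map fun n => b' n.2).sum = (V.map fun n => b n.2).sum := by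
  induction V with
  | nil => rfl
  | cons n V ih =>
    rw [List.flatMap_cons, List.map_append, List.sum_append, ih, List.map_cons, List.sum_cons]
    congr 1
    rw [sbd, cuts_sumL, hs]

/-- The positions do not change when the floors are subdivided. -/
theorem pos_flatMap (hb' : ∀ a, 0 < b' a) (hN : Dj b N) (hN2 : Dj b' N')
    (hs : ∀ a, ((s a).map b').sum = b a) (hN' : ∀ n ∈ N, ∀ m ∈ sbd b' s n, m ∈ N') :
    ∀ {V : List (K × ι)}, V.Nodup → (∀ n ∈ V, n ∈ N) → ∀ {v : K}, InFl b V v →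
      pos b' (V.flatMap (sbd b' s)) v = pos b V v
  | [], _, _, v, hv => by
    obtain ⟨n, hn, -⟩ := hv
    simp at hn
  | n :: V, hV, hVN, v, hv => by
    have hB := blk_sbd hb' hN hs hN'
    have h1 := hB.flat_nodup hV hVN
    have h2 := hB.flat_mem hVN
    rw [List.flatMap_cons] at h1 h2
    rw [List.flatMap_cons, pos]
    by_cases h : v ∈ Fl b n
    · rw [if_pos h, pos_append_left hN2 h1 h2 ((inFl_sbd hb' hs n v).2 h), sbd,
        pos_cuts hb' _ _ ((inFl_sbd hb' hs n v).2 h)]
    · rw [if_neg h]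
      have hv' : InFl b V v := by
        obtain ⟨m, hm, hv⟩ := hv
        rcases List.mem_cons.1 hm with rfl | hm
        exacts [absurd hv h, ⟨m, hm, hv⟩]
      rw [pos_append_right hN2 h1 h2 ((inFl_flatMap hb' hs V v).2 hv'),
        pos_flatMap hb' hN hN2 hs hN' (List.nodup_cons.1 hV).2
          (fun m hm => hVN m (by simp [hm])) hv']
      congr 1
      rw [sbd, cuts_sumL, hs]

/-- The image of an exchange of floors is the exchange of the subdivided floors. -/
theorem ex_eq_bx (hb : ∀ a, 0 < b a) (hb' : ∀ a, 0 < b' a) (hN : Dj b N) (hN2 : Dj b' N')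
    (hs : ∀ a, ((s a).map b').sum = b a) (hN' : ∀ n ∈ N, ∀ m ∈ sbd b' s n, m ∈ N')
    {i j : K × ι} (hi : i ∈ N) (hj : j ∈ N) (hij : i ≠ j) :
    bx (ex b') (sbd b' s) i j = ex b i j := by
  have hB := blk_sbd hb' hN hs hN'
  have hV : [i, j].Nodup := by simpa using hij
  have hVN : ∀ n ∈ [i, j], n ∈ N := by simp [hi, hj]
  have h1 := hB.flat_nodup hV hVN
  have h2 := hB.flat_mem hVN
  have e1 : [i, j].flatMap (sbd b' s) = sbd b' s i ++ sbd b' s j := by simp
  have e2 : [j, i].flatMap (sbd b' s) = sbd b' s j ++ sbd b' s i := by simp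
  rw [e1] at h1 h2
  ext v
  rw [bx]
  by_cases hv : InFl b [i, j] v
  · have hv' : InFl b' (sbd b' s i ++ sbd b' s j) v := by
      rw [← e1]
      exact (inFl_flatMap hb' hs _ _).2 hv
    have hp : (sbd b' s i ++ sbd b' s j).Perm (sbd b' s j ++ sbd b' s i) :=
      List.perm_append_comm
    have hm := X_ex_inFl hb' hN2 h1 h2 hp hv'
    have hm2 : InFl b [i, j] (X (ex b') (sbd b' s i ++ sbd b' s j)
        (sbd b' s j ++ sbd b' s i) v) := by
      rw [← inFl_flatMap hb' hs, e1]
      exact hm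
    have hp2 := pos_X_ex hb' hN2 h1 h2 hp hv'
    have hv2 : InFl b [j, i] v := by
      obtain ⟨m, hm, hv⟩ := hv
      exact ⟨m, by simpa [or_comm] using hm, hv⟩
    have hex := pos_ex (A := []) (B := []) hb hN (by simpa using hV) (by simpa using hVN)
      (v := v) (by simpa using hv)
    have hmx : InFl b [i, j] (ex b i j v) := by
      have := X_ex_inFl hb hN hV hVN (W := [j, i]) (List.Perm.swap _ _ _) hv
      rwa [X_pair _ hij] at this
    refine pos_inj hb hN hV hVN hm2 hmx ?_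
    rw [← pos_flatMap hb' hN hN2 hs hN' hV hVN hm2, e1, hp2, ← e2,
      pos_flatMap hb' hN hN2 hs hN' (by simpa using hij.symm) (by simp [hi, hj]) hv2]
    simpa using hex.symm
  · have hv' : ¬ InFl b' (sbd b' s i ++ sbd b' s j) v := by
      rw [← e1]
      exact fun h => hv ((inFl_flatMap hb' hs _ _).1 h)
    rw [X_ex_fix hb' hN2 h1 h2 List.perm_append_comm hv']
    have := X_ex_fix hb hN hV hVN (W := [j, i]) (List.Perm.swap _ _ _) hv
    rw [X_pair _ hij] at this
    exact this.symm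

end Pool.Agent.IEF
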