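import Pool.Agent.IEF.Lev4

/-!
# Every element is good at a later level
-/

set_option autoImplicit false
set_option linter.unusedSectionVars false

namespace Pool.Agent.IEF

open Pool.Agent.IET

variable {K : Type} [Field K] [LinearOrder K] [IsStrictOrderedRing K]

theorem sum_count {ι : Type} [Fintype ι] [DecidableEq ι] (b : ι → K) (w : List ι) :
    (w.map b).sum = ∑ a, (w.count a : K) * b a := by
  induction w with
  | nil => simp
  | cons c w ih =>
    rw [List.map_cons, List.sum_cons, ih]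
    have : ∀ a, ((c :: w).count a : K) * b a = (w.count a : K) * b a + if c = a then b a else 0 := by
      intro a
      rw [List.count_cons]
      by_cases h : c = a
      · subst h
        simp [add_mul]
      · simp [h]
    simp only [this, Finset.sum_add_distrib, Finset.sum_ite_eq, Finset.mem_univ, if_true]
    ring

theorem perm_of_sum {ι : Type} [Fintype ι] [DecidableEq ι] {b : ι → K} (hI : Indep b)
    {w w' : List ι} (h : (w.map b).sum = (w'.map b).sum) : w.Perm w' := by
  rw [List.perm_iff_count]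
  intro a
  have := hI (fun a => (w.count a : ℤ) - (w'.count a : ℤ)) (by
    rw [sum_count, sum_count] at h
    push_cast
    simp only [sub_mul, Finset.sum_sub_distrib]
    rw [h, sub_self])
  have := congrFun this a
  simp only [Pi.zero_apply] at this
  omega

theorem exists_map_eq {α β : Type} (f : α → β) : ∀ {w : List β} {L : List α},
    (L.map f).Perm w → ∃ L' : List α, L.Perm L' ∧ L'.map f = w
  | [], L, h => by
    have : L = [] := by simpa using h
    exact ⟨[], by rw [this], rfl⟩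
  | a :: w, L, h => by
    obtain ⟨c, hc, rfl⟩ := List.mem_map.1 (h.symm.subset (List.mem_cons_self ..))
    obtain ⟨L₁, L₂, rfl⟩ := List.append_of_mem hc
    have h1 : (L₁ ++ c :: L₂).Perm (c :: (L₁ ++ L₂)) := List.perm_middle
    have h2 : ((L₁ ++ L₂).map f).Perm w := by
      have := (h1.map f).symm.trans h
      rw [List.map_cons] at this
      exact this.cons_inv
    obtain ⟨L', hL', e⟩ := exists_map_eq f h2
    exact ⟨c :: L', h1.trans (hL'.cons c), by rw [List.map_cons, e]⟩

namespace Sys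

variable {ι : Type} [Fintype ι] [DecidableEq ι] {Γ : AddSubgroup K} (S : Sys ι Γ)

/-- Pieces of the floors of a list give a rearrangement inside the floors. -/
theorem exists_tau {k l : ℕ} (h : k ≤ l) (wd : K → List ι) :
    ∀ {W : List (K × ι)} {PA : List (List K)}, W.Nodup →
      PA.map List.sum = W.map (fun n => S.b k n.2) →
      (∀ p ∈ PA.flatten, ((wd p).map (S.b l)).sum = p) →
      ∃ τ : K × ι → List (K × ι), (∀ n, (S.sL k l n).Perm (τ n)) ∧
        (W.flatMap τ).map Prod.snd = PA.flatten.flatMap wd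
  | [], PA, _, hs, _ => by
    have : PA = [] := by simpa using hs
    subst this
    exact ⟨S.sL k l, fun n => .rfl, rfl⟩
  | n :: W, [], _, hs, _ => by simp at hs
  | n :: W, q :: PA, hW, hs, hw => by
    obtain ⟨τ₀, h1, h2⟩ := exists_tau h wd (List.nodup_cons.1 hW).2 (by simpa using
      (List.cons.inj hs).2) (fun p hp => hw p (by simp [hp] ))
    have hq : q.sum = S.b k n.2 := (List.cons.inj hs).1
    have h3 : ((q.flatMap wd).map (S.b l)).sum = q.sum := by
      have : ∀ (q : List K), (∀ p ∈ q, ((wd p).map (S.b l)).sum = p) →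
          ((q.flatMap wd).map (S.b l)).sum = q.sum := by
        intro q
        induction q with
        | nil => intro _; rfl
        | cons p q ih =>
          intro hp
          rw [List.flatMap_cons, List.map_append, List.sum_append,
            ih fun p' hp' => hp p' (by simp [hp']), hp p (by simp), List.sum_cons]
      exact this q fun p hp => hw p (by simp [hp])
    have h4 : ((S.sL k l n).map Prod.snd).Perm (q.flatMap wd) := by
      rw [sL, sbd, cuts_snd]
      exact perm_of_sum (S.indep l) (by rw [h3, hq, S.ss_sum h])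
    obtain ⟨τn, h5, h6⟩ := exists_map_eq Prod.snd h4
    classical
    refine ⟨Function.update τ₀ n τn, fun m => ?_, ?_⟩
    · by_cases hm : m = n
      · subst hm
        rwa [Function.update_self]
      · rw [Function.update_of_ne hm]
        exact h1 m
    · have h7 : W.flatMap (Function.update τ₀ n τn) = W.flatMap τ₀ := by
        refine List.flatMap_congr fun m hm => ?_
        rw [Function.update_of_ne]
        rintro rfl
        exact (List.nodup_cons.1 hW).1 hm
      rw [List.flatMap_cons, Function.update_self, h7, List.map_append, h6, h2,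
        List.flatten_cons, List.flatMap_append]

omit [DecidableEq ι] in
/-- Words exist at all later levels. -/
theorem word_mono {k l : ℕ} (h : k ≤ l) {x : K} (hx : ∃ w : List ι, (w.map (S.b k)).sum = x) :
    ∃ w : List ι, (w.map (S.b l)).sum = x := by
  obtain ⟨w, hw⟩ := hx
  exact ⟨w.flatMap (S.ss k l), by rw [sum_flat (S.ss_sum h), hw]⟩

omit [DecidableEq ι] in
/-- Finitely many positive elements are sums of words at a later level. -/
theorem exists_words (k : ℕ) : ∀ (P : List K), (∀ p ∈ P, 0 ≤ p ∧ p ∈ Γ) →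
    ∃ l, k ≤ l ∧ ∀ p ∈ P, ∃ w : List ι, (w.map (S.b l)).sum = p
  | [], _ => ⟨k, le_rfl, by simp⟩
  | p :: P, h => by
    obtain ⟨l, hl, hw⟩ := exists_words k P fun q hq => h q (by simp [hq])
    obtain ⟨m, hm⟩ : ∃ m, ∃ w : List ι, (w.map (S.b m)).sum = p := by
      rcases (h p (by simp)).1.eq_or_lt with h0 | h0
      · exact ⟨0, [], by simpa using h0⟩
      · exact S.cof p (h p (by simp)).2 h0
    refine ⟨max l m, hl.trans (le_max_left _ _), fun q hq => ?_⟩
    rcases List.mem_cons.1 hq with rfl | hq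
    · exact S.word_mono (le_max_right _ _) hm
    · exact S.word_mono (le_max_left _ _) (hw q hq)

/-- Good elements of level `l`. -/
noncomputable abbrev gd' (l : ℕ) (W' W : List (K × ι)) : S.Gr l := gd (S.x l) (S.bs l) W' W

theorem f_gd {k l : ℕ} (h : k ≤ l) {W' W : List (K × ι)} (hW' : (S.bs k).Perm W')
    (hW : (S.bs k).Perm W) :
    S.f k l h (S.gd' k W' W) = S.gd' l (W'.flatMap (S.sL k l)) (W.flatMap (S.sL k l)) := by
  rw [gd', gd, map_mul, map_inv, S.f_X h (S.bs_nodup k) (fun _ h => h) hW',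
    S.f_X h (S.bs_nodup k) (fun _ h => h) hW, S.bs_flat h, gd', gd]

omit [DecidableEq ι] in
theorem len_perm {k : ℕ} {W : List (K × ι)} (hW : (S.bs k).Perm W) :
    (W.map fun n => S.b k n.2).sum = 1 := by
  rw [← (hW.map _).sum_eq, bs, cuts_sumL, S.TT_sum]

/-- The product of two good elements is good at a later level. -/
theorem gd_mul_gd {k : ℕ} {W' W V' V : List (K × ι)} (hW' : (S.bs k).Perm W')
    (hW : (S.bs k).Perm W) (hV' : (S.bs k).Perm V') (hV : (S.bs k).Perm V) :
    ∃ l, ∃ h : k ≤ l, ∃ Z' Z : List (K × ι), (S.bs l).Perm Z' ∧ (S.bs l).Perm Z ∧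
      S.f k l h (S.gd' k W' W * S.gd' k V' V) = S.gd' l Z' Z := by
  have hlen : ∀ {Y : List (K × ι)}, ∀ a ∈ Y.map (fun n => S.b k n.2), 0 < a ∧ a ∈ Γ := by
    intro Y a ha
    obtain ⟨n, -, rfl⟩ := List.mem_map.1 ha
    exact ⟨S.pos k _, S.mem k _⟩
  obtain ⟨PA, PB, e1, e2, e3, e4⟩ := riesz Γ (W.map fun n => S.b k n.2)
    (V'.map fun n => S.b k n.2) hlen hlen (by rw [S.len_perm hW, S.len_perm hV'])
  obtain ⟨l, hl, hw⟩ := S.exists_words k PA.flatten fun p hp => ⟨(e4 p hp).1.le, (e4 p hp).2⟩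
  have : ∀ p, ∃ w : List ι, p ∈ PA.flatten → (w.map (S.b l)).sum = p := by
    intro p
    by_cases hp : p ∈ PA.flatten
    · obtain ⟨w, hw⟩ := hw p hp
      exact ⟨w, fun _ => hw⟩
    · exact ⟨[], fun h => absurd h hp⟩
  choose wd hwd using this
  obtain ⟨τ, h1, h2⟩ := S.exists_tau hl wd (hW.nodup_iff.1 (S.bs_nodup k)) e2 hwd
  obtain ⟨τ', h1', h2'⟩ := S.exists_tau hl wd (hV'.nodup_iff.1 (S.bs_nodup k)) e3
    (fun p hp => hwd p (by rwa [e1]))
  obtain ⟨Z', Z, hZ', hZ, e⟩ := gd_mul (S.blk hl) (S.tyb l) (S.bs_nodup k) (fun _ h => h)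
    (fun n _ => h1 n) (fun n _ => h1' n) hW' hW hV' hV (by rw [h2, h2', e1])
  refine ⟨l, hl, Z', Z, ?_, ?_, ?_⟩
  · rwa [S.bs_flat hl] at hZ'
  · rwa [S.bs_flat hl] at hZ
  · rw [map_mul, S.f_gd hl hW' hW, S.f_gd hl hV' hV]
    rw [S.bs_flat hl] at e
    exact e

omit [DecidableEq ι] in
theorem perm_flat {k l : ℕ} (h : k ≤ l) {W : List (K × ι)} (hW : (S.bs k).Perm W) :
    (S.bs l).Perm (W.flatMap (S.sL k l)) := by
  rw [← S.bs_flat h]
  exact hW.flatMap_right _

/-- Every element is good at a later level. -/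
theorem exists_good {k : ℕ} (g : S.Gr k) :
    ∃ l, ∃ h : k ≤ l, ∃ Z' Z : List (K × ι), (S.bs l).Perm Z' ∧ (S.bs l).Perm Z ∧
      S.f k l h g = S.gd' l Z' Z := by
  refine P_induction (q := fun g => ∃ l, ∃ h : k ≤ l, ∃ Z' Z : List (K × ι),
    (S.bs l).Perm Z' ∧ (S.bs l).Perm Z ∧ S.f k l h g = S.gd' l Z' Z) ?_ ?_ g
  · exact ⟨k, le_rfl, S.bs k, S.bs k, .rfl, .rfl, by rw [map_one, gd', gd, mul_inv_cancel]⟩
  · rintro g ⟨l, hl, Z', Z, hZ', hZ, e⟩ i hi j hj hij
    -- the generator at level `k` is the product of two good elements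
    obtain ⟨R, hR⟩ : ∃ R : List (K × ι), (S.bs k).Perm (i :: j :: R) := by
      have h1 : (S.bs k).Perm (i :: (S.bs k).erase i) := List.perm_cons_erase hi
      have h2 : j ∈ (S.bs k).erase i := (List.mem_erase_of_ne hij.symm).2 hj
      exact ⟨((S.bs k).erase i).erase j, h1.trans ((List.perm_cons_erase h2).cons i)⟩
    have hR' : (S.bs k).Perm (j :: i :: R) := hR.trans (List.Perm.swap _ _ _)
    have hx : xg (S.NN k) Prod.snd i j =
        S.gd' k (S.bs k) (i :: j :: R) * S.gd' k (j :: i :: R) (S.bs k) := by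
      have hyb := (S.tyb k).toYB
      have h1 := X_step (A := []) (B := R) (i := i) (j := j) hyb (S.bs_nodup k) (fun _ h => h) hR
      simp only [List.nil_append] at h1
      rw [gd', gd, gd', gd, X_self _ (S.bs_nodup k), one_mul, inv_one, mul_one, h1,
        inv_mul_cancel_left]
    -- first product
    obtain ⟨m, hm, Y', Y, hY', hY, e'⟩ := S.gd_mul_gd hZ' hZ
      (V' := (S.bs k).flatMap (S.sL k l)) (V := (i :: j :: R).flatMap (S.sL k l))
      (S.perm_flat hl .rfl) (S.perm_flat hl hR)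
    have hkm := hl.trans hm
    obtain ⟨n, hn, X', X, hX', hX, e''⟩ := S.gd_mul_gd hY' hY
      (V' := (j :: i :: R).flatMap (S.sL k m)) (V := (S.bs k).flatMap (S.sL k m))
      (S.perm_flat hkm hR') (S.perm_flat hkm .rfl)
    refine ⟨n, hkm.trans hn, X', X, hX', hX, ?_⟩
    rw [← e'', hx, ← S.f_f k m n hkm hn]
    congr 1
    rw [← mul_assoc, map_mul, map_mul, S.f_gd hkm hR' .rfl]
    congr 1
    rw [← e', ← S.f_f k l m hl hm, ← S.f_f k l m hl hm, e, S.f_gd hl .rfl hR, ← map_mul]

/-- A good element which acts trivially is trivial. -/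
theorem gd_eq_one {l : ℕ} {Z' Z : List (K × ι)} (hZ' : (S.bs l).Perm Z') (hZ : (S.bs l).Perm Z)
    (h : S.pi l (S.gd' l Z' Z) = 1) : S.gd' l Z' Z = 1 := by
  have hV := S.bs_nodup l
  have hVN : ∀ n ∈ S.bs l, n ∈ S.NN l := fun _ h => h
  have h1 : X (ex (S.b l)) (S.bs l) Z' = X (ex (S.b l)) (S.bs l) Z := by
    rw [gd', gd, map_mul, map_inv, S.pi_X l hV hVN hZ', S.pi_X l hV hVN hZ] at h
    exact mul_inv_eq_one.1 h
  have h2 : Z' = Z := by
    refine eq_of_pos_eq (S.pos l) (S.dj l) (hZ'.nodup_iff.1 hV)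
      (fun n hn => hZ'.symm.subset hn) (hZ'.symm.trans hZ) ?_
    rintro v ⟨n, hn, hv⟩
    have hv' : InFl (S.b l) (S.bs l) v := ⟨n, hZ'.symm.subset hn, hv⟩
    rw [← pos_X_ex (S.pos l) (S.dj l) hV hVN hZ' hv', h1,
      pos_X_ex (S.pos l) (S.dj l) hV hVN hZ hv']
  rw [gd', gd, h2, mul_inv_cancel]

/-- The kernels die. -/
theorem kernel {k : ℕ} (g : S.Gr k) (h : S.pi k g = 1) : ∃ l, ∃ hl : k ≤ l, S.f k l hl g = 1 := by
  obtain ⟨l, hl, Z', Z, hZ', hZ, e⟩ := S.exists_good g
  refine ⟨l, hl, ?_⟩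
  rw [e]
  refine S.gd_eq_one hZ' hZ ?_
  rw [← e, S.pi_f, h]

end Sys

end Pool.Agent.IEF
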