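import Pool.Agent.IEF.Ends
import Mathlib.Order.Filter.FilterProduct
import Mathlib.Order.Filter.AtTopBot.Field

/-!
# Groups of piecewise isometric permutations of the line

They act on the interval `[-w, w)` of an ultrapower, `w` infinite.
-/

set_option autoImplicit false
set_option linter.unusedSectionVars false

namespace Pool.Agent.IEF

open Filter Pool.Agent.Helper29.BA Pool.Agent.Helper29.PA

variable {K : Type} [Field K] [LinearOrder K] [IsStrictOrderedRing K]

theorem mem_of_nr {C : ∀ (G : Type) [Group G], Prop} (hC : ExtClass C)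
    (hGL : ∀ n, C (Matrix.GeneralLinearGroup (Fin n) ℤ))
    (H : Subgroup (Equiv.Perm K)) (hN : ∀ h ∈ H, Nr h) (hF : ∀ h ∈ H, ∃ F : Finset K, Pw F h) :
    C H := by
  let _ : TopologicalSpace K := Preorder.topology K
  have _ : OrderTopology K := ⟨rfl⟩
  have h1 : C (wrap hN).range := by
    refine mem_of_isPI hC (fun H' hH' => mem_of_isIET hC.toClosedClass hGL H' hH') _ ?_
    rintro _ ⟨h, rfl⟩
    exact isPI_wrap hN h (hF h h.2)
  refine hC.inj (wrap hN).rangeRestrict ?_ h1
  intro a b h
  exact wrap_injective hN (congrArg Subtype.val h)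

/-- An ultrafilter on `K` finer than the filter of the neighbourhoods of infinity. -/
noncomputable def UF (K : Type) [Field K] [LinearOrder K] [IsStrictOrderedRing K] :
    Ultrafilter K := Ultrafilter.of (atTop : Filter K)

/-- An ultrapower of `K`. -/
abbrev Up (K : Type) [Field K] [LinearOrder K] [IsStrictOrderedRing K] : Type :=
  Germ (UF K : Filter K) K

/-- The element of a function. -/
noncomputable def sq (u : K → K) : Up K := (u : Germ (UF K : Filter K) K)

/-- Constants. -/
noncomputable def cs (c : K) : Up K := sq fun _ => c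

/-- An infinite element. -/
noncomputable def om (K : Type) [Field K] [LinearOrder K] [IsStrictOrderedRing K] : Up K :=
  sq fun x => x

theorem sq_surjective (x : Up K) : ∃ u : K → K, x = sq u := by
  induction x using Germ.inductionOn with
  | _ u => exact ⟨u, rfl⟩

theorem sq_lt {u v : K → K} : sq u < sq v ↔ ∀ᶠ n in (UF K : Filter K), u n < v n := Germ.coe_lt

theorem sq_congr {u v : K → K} (h : ∀ᶠ n in (UF K : Filter K), u n = v n) :
    sq u = sq v := Germ.coe_eq.2 h

theorem cs_inj {a b : K} (h : cs a = cs b) : a = b := Germ.const_inj.1 h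

theorem cs_lt_om (c : K) : cs c < om K :=
  sq_lt.2 ((eventually_gt_atTop c).filter_mono (Ultrafilter.of_le _))

theorem om_pos : 0 < om K := cs_lt_om 0

/-- The extension of a function to the ultrapower. -/
noncomputable def st (f : K → K) : Up K → Up K := Germ.map f

theorem st_sq (f : K → K) (u : K → K) : st f (sq u) = sq (fun n => f (u n)) := rfl

theorem st_st (f g : K → K) (x : Up K) : st f (st g x) = st (f ∘ g) x := by
  obtain ⟨u, rfl⟩ := sq_surjective x
  rfl

theorem st_id (x : Up K) : st id x = x := by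
  obtain ⟨u, rfl⟩ := sq_surjective x
  rfl

theorem st_cs (f : K → K) (x : K) : st f (cs x) = cs (f x) := rfl

/-- The extension of a permutation to the ultrapower. -/
noncomputable def stP : Equiv.Perm K →* Equiv.Perm (Up K) :=
  MonoidHom.mk'
    (fun g => ⟨st g, st g.symm, fun x => by
      rw [st_st, show (g.symm : K → K) ∘ g = id from funext g.symm_apply_apply, st_id],
      fun x => by
      rw [st_st, show (g : K → K) ∘ g.symm = id from funext g.apply_symm_apply, st_id]⟩)
    (fun g h => Equiv.ext fun x => (st_st g h x).symm)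

theorem stP_apply (g : Equiv.Perm K) (x : Up K) : stP g x = st g x := rfl

theorem st_pw {F : Finset K} {g : K → K} (hF : Pw F g) [DecidableEq (Up K)] :
    Pw (F.image cs) (st g) := by
  intro x y hxy
  obtain ⟨u, rfl⟩ := sq_surjective x
  obtain ⟨v, rfl⟩ := sq_surjective y
  have h1 : ∀ᶠ n in (UF K : Filter K), ∀ c ∈ F, (c < u n ∧ c < v n) ∨
      (u n < c ∧ v n < c) := by
    rw [Finset.eventually_all]
    intro c hc
    rcases hxy (cs c) (Finset.mem_image_of_mem _ hc) with ⟨h, h'⟩ | ⟨h, h'⟩
    · have e1 : ∀ᶠ n in (UF K : Filter K), c < u n := sq_lt.1 h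
      have e2 : ∀ᶠ n in (UF K : Filter K), c < v n := sq_lt.1 h'
      exact (e1.and e2).mono fun n hn => Or.inl hn
    · have e1 : ∀ᶠ n in (UF K : Filter K), u n < c := sq_lt.1 h
      have e2 : ∀ᶠ n in (UF K : Filter K), v n < c := sq_lt.1 h'
      exact (e1.and e2).mono fun n hn => Or.inr hn
  have h2 : sq (fun n => |g (u n) - g (v n)|) = sq (fun n => |u n - v n|) :=
    sq_congr (h1.mono fun n hn => hF _ _ hn)
  exact h2

theorem st_ends {g : K → K} {M t : K} (h : ∀ x, M < |x| → g x = x + t) {x : Up K}
    (hx : cs M < |x|) : st g x = x + cs t := by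
  obtain ⟨u, rfl⟩ := sq_surjective x
  have h1 : ∀ᶠ n in (UF K : Filter K), M < |u n| := sq_lt.1 hx
  have h2 : sq (fun n => g (u n)) = sq (fun n => u n + t) :=
    sq_congr (h1.mono fun n hn => h _ hn)
  exact h2

theorem st_ends' {g : K → K} {M t : K} (h : ∀ x, M < |x| → g x = -x + t) {x : Up K}
    (hx : cs M < |x|) : st g x = -x + cs t := by
  obtain ⟨u, rfl⟩ := sq_surjective x
  have h1 : ∀ᶠ n in (UF K : Filter K), M < |u n| := sq_lt.1 hx
  have h2 : sq (fun n => g (u n)) = sq (fun n => -u n + t) :=
    sq_congr (h1.mono fun n hn => h _ hn)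
  exact h2

/-- The affine map from `[-w, w)` to `[0, 1)`. -/
noncomputable def aff (K : Type) [Field K] [LinearOrder K] [IsStrictOrderedRing K] :
    Equiv.Perm (Up K) where
  toFun x := (x + om K) / (2 * om K)
  invFun u := 2 * om K * u - om K
  left_inv x := by
    have := om_pos (K := K)
    field_simp
    ring
  right_inv u := by
    have := om_pos (K := K)
    field_simp
    ring

/-- The action in the coordinate of `[0, 1)`. -/
noncomputable def ph : Equiv.Perm K →* Equiv.Perm (Up K) :=
  (MulAut.conj (aff K)).toMonoidHom.comp stP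

theorem ph_apply (g : Equiv.Perm K) (u : Up K) :
    ph g u = (st g (2 * om K * u - om K) + om K) / (2 * om K) := rfl

theorem ph_injective : Function.Injective (ph (K := K)) := by
  intro g h e
  have h1 : stP g = stP h := (MulAut.conj (aff K)).injective e
  refine Equiv.ext fun x => ?_
  have h2 : st g (cs x) = st h (cs x) := by
    rw [← stP_apply, ← stP_apply, h1]
  rw [st_cs, st_cs] at h2
  exact cs_inj h2

theorem ph_pw {F : Finset K} {g : Equiv.Perm K} (hF : Pw F g) :
    ∃ F' : Finset (Up K), Pw F' (ph g) := by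
  classical
  refine ⟨(F.image cs).image (aff K), fun x y hxy => ?_⟩
  have h0 := om_pos (K := K)
  rw [ph_apply, ph_apply, ← sub_div, add_sub_add_right_eq_sub, abs_div]
  have h1 : |st g (2 * om K * x - om K) - st g (2 * om K * y - om K)|
      = |(2 * om K * x - om K) - (2 * om K * y - om K)| := by
    refine st_pw hF _ _ fun c hc => ?_
    have h2 := hxy (aff K c) (Finset.mem_image_of_mem _ hc)
    change ((c + om K) / (2 * om K) < x ∧ (c + om K) / (2 * om K) < y) ∨
      (x < (c + om K) / (2 * om K) ∧ y < (c + om K) / (2 * om K)) at h2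
    rw [div_lt_iff₀ (by linarith), div_lt_iff₀ (by linarith), lt_div_iff₀ (by linarith),
      lt_div_iff₀ (by linarith)] at h2
    rcases h2 with ⟨h3, h4⟩ | ⟨h3, h4⟩
    · left
      constructor <;> linarith
    · right
      constructor <;> linarith
  rw [h1, show (2 * om K * x - om K) - (2 * om K * y - om K) = 2 * om K * (x - y) by ring,
    abs_mul]
  have h3 : |2 * om K| ≠ 0 := by
    rw [abs_ne_zero]
    linarith
  rw [mul_div_assoc, mul_comm, div_mul_cancel₀ _ h3]

theorem cs_mul_lt {c : K} (n : ℕ) : cs c * n < om K := by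
  have h : cs c * (n : Up K) = cs (c * n) := rfl
  rw [h]
  exact cs_lt_om _

theorem ph_nr {F : Finset K} {g : Equiv.Perm K} (hg : Pw F g) : Nr (ph g) := by
  obtain ⟨M, t, hM, h⟩ := ends hg
  have h0 := om_pos (K := K)
  have hM1 : cs M * 2 < om K := by
    have := cs_mul_lt (c := M) 2
    rwa [Nat.cast_ofNat] at this
  have ht1 : |cs t| * 4 < om K := by
    have := cs_mul_lt (c := |t|) 4
    rwa [Nat.cast_ofNat] at this
  have hu : ∀ u : Up K, (u ≤ 1 / 4 ∨ 3 / 4 ≤ u) → cs M < |2 * om K * u - om K| := by
    intro u hu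
    rcases hu with hu | hu
    · have h1 : om K * u ≤ om K * (1 / 4) := mul_le_mul_of_nonneg_left hu h0.le
      rw [lt_abs]
      right
      linarith
    · have h1 : om K * (3 / 4) ≤ om K * u := mul_le_mul_of_nonneg_left hu h0.le
      rw [lt_abs]
      left
      linarith
  refine ⟨cs t / (2 * om K), ?_, ?_⟩
  · rw [abs_div, abs_of_pos (show (0 : Up K) < 2 * om K by linarith),
      div_le_iff₀ (by linarith)]
    linarith
  · rcases h with h | h
    · left
      intro u hu'
      rw [ph_apply, st_ends h (hu u hu')]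
      field_simp
      ring
    · right
      intro u hu'
      rw [ph_apply, st_ends' h (hu u hu')]
      field_simp
      ring

/-- **Groups of piecewise isometric permutations of the line.** -/
theorem mem_line {C : ∀ (G : Type) [Group G], Prop} (hC : ExtClass C)
    (hGL : ∀ n, C (Matrix.GeneralLinearGroup (Fin n) ℤ))
    (G : Subgroup (Equiv.Perm K)) (hG : ∀ g ∈ G, ∃ F : Finset K, ∀ x y : K,
      (∀ c ∈ F, (c < x ∧ c < y) ∨ (x < c ∧ y < c)) → |g x - g y| = |x - y|) : C G := by
  have h1 : C (G.map ph) := by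
    refine mem_of_nr hC hGL (G.map ph) ?_ ?_
    · rintro _ ⟨g, hg, rfl⟩
      obtain ⟨F, hF⟩ := hG g hg
      exact ph_nr hF
    · rintro _ ⟨g, hg, rfl⟩
      obtain ⟨F, hF⟩ := hG g hg
      exact ph_pw hF
  refine hC.inj ((ph.comp G.subtype).codRestrict (G.map ph) fun g =>
    Subgroup.mem_map_of_mem _ g.2) ?_ h1
  intro a b h
  exact Subtype.ext (ph_injective (congrArg Subtype.val h))

end Pool.Agent.IEF
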