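import Pool.Agent.IEF.Main
import Pool.Agent.IEF.Flip

/-!
# Permutations of the line which are almost periodic outside of the middle

Permutations of an ordered field which are isometric on the components of the complement of a
finite set and which are close to the identity or to the reflection in `1 / 2` outside of
`(1 / 4, 3 / 4)` act on `[0, 1)`, by reduction modulo `1`.
-/

set_option autoImplicit false
set_option linter.unusedSectionVars false

namespace Pool.Agent.IEF

open Pool.Agent.Helper29.BA Pool.Agent.Helper29.PA Pool.Agent.T59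

variable {K : Type} [Field K] [LinearOrder K] [IsStrictOrderedRing K]

/-- `f` is isometric on the components of the complement of `F`. -/
def Pw (F : Finset K) (f : K → K) : Prop :=
  ∀ x y, (∀ c ∈ F, (c < x ∧ c < y) ∨ (x < c ∧ y < c)) → |f x - f y| = |x - y|

/-- Almost the identity or the reflection outside of the middle. -/
def Nr (h : K → K) : Prop :=
  ∃ τ : K, |τ| ≤ 1 / 8 ∧ ((∀ u, (u ≤ 1 / 4 ∨ 3 / 4 ≤ u) → h u = u + τ) ∨
    ∀ u, (u ≤ 1 / 4 ∨ 3 / 4 ≤ u) → h u = 1 - u + τ)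

theorem Nr.mid {h : Equiv.Perm K} (hh : Nr h) {u : K} (h1 : 1 / 4 < u) (h2 : u < 3 / 4) :
    0 ≤ h u ∧ h u < 1 := by
  obtain ⟨τ, ht, h3 | h3⟩ := hh <;> rw [abs_le] at ht
  · constructor
    · by_contra hcon
      have h4 := h3 (h u - τ) (Or.inl (by linarith))
      rw [sub_add_cancel] at h4
      have := h.injective h4
      linarith
    · by_contra hcon
      have h4 := h3 (h u - τ) (Or.inr (by linarith))
      rw [sub_add_cancel] at h4
      have := h.injective h4
      linarith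
  · constructor
    · by_contra hcon
      have h4 := h3 (1 + τ - h u) (Or.inr (by linarith))
      have h5 : h (1 + τ - h u) = h u := h4.trans (by ring)
      have := h.injective h5
      linarith
    · by_contra hcon
      have h4 := h3 (1 + τ - h u) (Or.inl (by linarith))
      have h5 : h (1 + τ - h u) = h u := h4.trans (by ring)
      have := h.injective h5
      linarith

theorem Nr.bd {h : Equiv.Perm K} (hh : Nr h) {u : K} (h1 : 0 ≤ u) (h2 : u < 1) :
    -(1 / 8) ≤ h u ∧ h u ≤ 9 / 8 := by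
  by_cases h3 : u ≤ 1 / 4 ∨ 3 / 4 ≤ u
  · obtain ⟨τ, ht, h4 | h4⟩ := hh <;> rw [abs_le] at ht <;> rw [h4 u h3] <;>
      constructor <;> linarith
  · rw [not_or, not_le, not_le] at h3
    have := hh.mid h3.1 h3.2
    constructor <;> linarith

/-- `v` is `h u` modulo `1`. -/
def Wr (h : K → K) (u v : K) : Prop := ∃ k : ℤ, v = h u + k

theorem wr_unique {h : K → K} {u v w : K} (h1 : 0 ≤ v ∧ v < 1) (h2 : 0 ≤ w ∧ w < 1)
    (h3 : Wr h u v) (h4 : Wr h u w) : v = w := by
  obtain ⟨k, rfl⟩ := h3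
  obtain ⟨l, rfl⟩ := h4
  have h5 : ((k - l : ℤ) : K) < ((1 : ℤ) : K) := by push_cast; linarith
  have h6 : ((-1 : ℤ) : K) < ((k - l : ℤ) : K) := by push_cast; linarith
  rw [Int.cast_lt] at h5 h6
  have h7 : k = l := by omega
  rw [h7]

/-- A point of `[0, 1)` is the value modulo `1`, except at the ends. -/
theorem wr_cases {h : Equiv.Perm K} (hh : Nr h) {u v : K} (hu : 0 ≤ u ∧ u < 1)
    (hv : 0 ≤ v ∧ v < 1) {k : ℤ} (h1 : v = h u + k) :
    (k = 0 ∧ v = h u) ∨ (k = 1 ∧ h u < 0 ∧ v = h u + 1) ∨ (k = -1 ∧ 1 ≤ h u ∧ v = h u - 1) := by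
  have h2 := hh.bd hu.1 hu.2
  have h3 : (k : K) < ((2 : ℤ) : K) := by push_cast; linarith
  have h4 : ((-2 : ℤ) : K) < (k : K) := by push_cast; linarith
  rw [Int.cast_lt] at h3 h4
  have h5 : k = 0 ∨ k = 1 ∨ k = -1 := by omega
  rcases h5 with rfl | rfl | rfl
  · left
    exact ⟨rfl, by simpa using h1⟩
  · right; left
    rw [Int.cast_one] at h1
    exact ⟨rfl, by linarith, h1⟩
  · right; right
    rw [Int.cast_neg, Int.cast_one] at h1
    exact ⟨rfl, by linarith, by linarith⟩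

theorem wr_mul {g h : Equiv.Perm K} (hg : Nr g) (hh : Nr h) {u v w : K} (hu : 0 ≤ u ∧ u < 1)
    (hv : 0 ≤ v ∧ v < 1) (h1 : Wr g u v) (h2 : Wr h v w) : Wr (h * g : Equiv.Perm K) u w := by
  obtain ⟨k, hk⟩ := h1
  obtain ⟨l, rfl⟩ := h2
  have h3 := hg.bd hu.1 hu.2
  have key : ∃ m : ℤ, h v = h (g u) + m := by
    obtain ⟨τ, _, h4⟩ := hh
    rcases wr_cases hg hu hv hk with ⟨-, h5⟩ | ⟨-, h5, h6⟩ | ⟨-, h5, h6⟩
    · exact ⟨0, by rw [h5, Int.cast_zero, add_zero]⟩
    · rcases h4 with h4 | h4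
      · refine ⟨1, ?_⟩
        rw [h4 v (Or.inr (by linarith)), h4 (g u) (Or.inl (by linarith)), h6, Int.cast_one]
        ring
      · refine ⟨-1, ?_⟩
        rw [h4 v (Or.inr (by linarith)), h4 (g u) (Or.inl (by linarith)), h6, Int.cast_neg,
          Int.cast_one]
        ring
    · rcases h4 with h4 | h4
      · refine ⟨-1, ?_⟩
        rw [h4 v (Or.inl (by linarith)), h4 (g u) (Or.inr (by linarith)), h6, Int.cast_neg,
          Int.cast_one]
        ring
      · refine ⟨1, ?_⟩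
        rw [h4 v (Or.inl (by linarith)), h4 (g u) (Or.inr (by linarith)), h6, Int.cast_one]
        ring
  obtain ⟨m, hm⟩ := key
  refine ⟨m + l, ?_⟩
  rw [hm, Int.cast_add, Equiv.Perm.mul_apply]
  ring

section action

variable {H : Subgroup (Equiv.Perm K)} (hH : ∀ h ∈ H, Nr h)

include hH

theorem exists_wr (h : H) (u : Set.Ico (0 : K) 1) :
    ∃ v : Set.Ico (0 : K) 1, Wr (h : Equiv.Perm K) u v := by
  have h1 := (hH h h.2).bd u.2.1 u.2.2
  by_cases h2 : (h : Equiv.Perm K) u < 0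
  · exact ⟨⟨(h : Equiv.Perm K) u + 1, by constructor <;> linarith⟩, 1, by simp⟩
  · by_cases h3 : 1 ≤ (h : Equiv.Perm K) u
    · exact ⟨⟨(h : Equiv.Perm K) u + -1, by constructor <;> linarith⟩, -1, by simp⟩
    · exact ⟨⟨(h : Equiv.Perm K) u, by constructor <;> linarith⟩, 0, by simp⟩

/-- The action modulo `1`. -/
noncomputable def wact (h : H) (u : Set.Ico (0 : K) 1) : Set.Ico (0 : K) 1 :=
  (exists_wr hH h u).choose

theorem wact_spec (h : H) (u : Set.Ico (0 : K) 1) :
    Wr (h : Equiv.Perm K) u (wact hH h u) := (exists_wr hH h u).choose_spec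

theorem wact_eq {h : H} {u v : Set.Ico (0 : K) 1} (h1 : Wr (h : Equiv.Perm K) u v) :
    wact hH h u = v :=
  Subtype.ext (wr_unique (wact hH h u).2 v.2 (wact_spec hH h u) h1)

theorem wact_mul (g h : H) (u : Set.Ico (0 : K) 1) :
    wact hH (g * h) u = wact hH g (wact hH h u) :=
  wact_eq hH (wr_mul (hH h h.2) (hH g g.2) u.2 (wact hH h u).2 (wact_spec hH h u)
    (wact_spec hH g _))

theorem wact_one (u : Set.Ico (0 : K) 1) : wact hH 1 u = u := wact_eq hH ⟨0, by simp⟩

/-- The action modulo `1`. -/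
noncomputable def wrap : H →* Equiv.Perm (Set.Ico (0 : K) 1) :=
  MonoidHom.mk'
    (fun g => ⟨wact hH g, wact hH g⁻¹,
      fun u => by rw [← wact_mul, inv_mul_cancel, wact_one],
      fun u => by rw [← wact_mul, mul_inv_cancel, wact_one]⟩)
    (fun f g => Equiv.ext fun u => wact_mul hH f g u)

theorem wrap_spec (h : H) (u : Set.Ico (0 : K) 1) :
    Wr (h : Equiv.Perm K) u (wrap hH h u) := wact_spec hH h u

theorem wrap_injective : Function.Injective (wrap hH) := by
  rw [injective_iff_map_eq_one]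
  intro h h1
  have h2 : ∀ u : K, 0 ≤ u → u < 1 → ∃ k : ℤ, u = (h : Equiv.Perm K) u + k := by
    intro u hu1 hu2
    have := wrap_spec hH h ⟨u, hu1, hu2⟩
    rw [h1] at this
    exact this
  have hh := hH h h.2
  -- the middle
  have hm : ∀ u : K, 1 / 4 < u → u < 3 / 4 → (h : Equiv.Perm K) u = u := by
    intro u hu1 hu2
    obtain ⟨k, hk⟩ := h2 u (by linarith) (by linarith)
    have h3 := hh.mid hu1 hu2
    rcases wr_cases hh (u := u) (v := u) (by constructor <;> linarith)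
      (by constructor <;> linarith) hk with ⟨-, h5⟩ | ⟨-, h5, h6⟩ | ⟨-, h5, h6⟩
    · exact h5.symm
    · linarith
    · linarith
  -- the ends
  have h8 : (0 : K) ≤ 1 / 8 := by norm_num
  have h9 : (1 : K) / 8 < 1 := by norm_num
  obtain ⟨k, hk⟩ := h2 (1 / 8) h8 h9
  have h5 := wr_cases hh (u := 1 / 8) (v := 1 / 8) ⟨h8, h9⟩ ⟨h8, h9⟩ hk
  obtain ⟨τ, ht, h3⟩ := hh
  rw [abs_le] at ht
  apply Subtype.ext
  refine Equiv.ext fun u => ?_
  change (h : Equiv.Perm K) u = u
  by_cases hu : u ≤ 1 / 4 ∨ 3 / 4 ≤ u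
  · rcases h3 with h3 | h3
    · rw [h3 (1 / 8) (Or.inl (by norm_num))] at h5
      rw [h3 u hu]
      rcases h5 with ⟨-, h5⟩ | ⟨-, h5, h6⟩ | ⟨-, h5, h6⟩ <;> linarith
    · rw [h3 (1 / 8) (Or.inl (by norm_num))] at h5
      rcases h5 with ⟨-, h5⟩ | ⟨-, h5, h6⟩ | ⟨-, h5, h6⟩ <;> linarith
  · rw [not_or, not_le, not_le] at hu
    exact hm u hu.1 hu.2

theorem isPI_wrap (h : H) (hF : ∃ F : Finset K, Pw F (h : Equiv.Perm K)) :
    IsPI (wrap hH h) := by
  classical
  obtain ⟨F, hF⟩ := hF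
  set g : Equiv.Perm K := (h : Equiv.Perm K) with hg
  have hh : Nr g := hH h h.2
  obtain ⟨τ, ht, hout⟩ := id hh
  refine ⟨F ∪ {1 / 4, 3 / 4, τ, -τ, 1 + τ, 1 - τ}, fun x y hxy => ?_⟩
  obtain ⟨k, hk⟩ := wrap_spec hH h x
  obtain ⟨l, hl⟩ := wrap_spec hH h y
  have h1 := wr_cases hh x.2 (wrap hH h x).2 hk
  have h2 := wr_cases hh y.2 (wrap hH h y).2 hl
  have h3 : |g x - g y| = |(x : K) - y| := hF x y fun c hc => hxy c (Finset.mem_union_left _ hc)
  have c1 := hxy (1 / 4) (by simp)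
  have c2 := hxy (3 / 4) (by simp)
  have c3 := hxy τ (by simp)
  have c4 := hxy (-τ) (by simp)
  have c5 := hxy (1 + τ) (by simp)
  have c6 := hxy (1 - τ) (by simp)
  -- the values before reduction
  have hvx := (wrap hH h x).2
  have hvy := (wrap hH h y).2
  have key : k = l := by
    by_cases hm : 1 / 4 < (x : K) ∧ (x : K) < 3 / 4
    · have hm' : 1 / 4 < (y : K) ∧ (y : K) < 3 / 4 := by
        rcases c1 with c1 | c1 <;> rcases c2 with c2 | c2 <;> constructor <;> linarith [hm.1, hm.2]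
      have m1 := hh.mid hm.1 hm.2
      have m2 := hh.mid hm'.1 hm'.2
      rcases h1 with ⟨r1, -⟩ | ⟨-, r1, -⟩ | ⟨-, r1, -⟩
      · rcases h2 with ⟨r2, -⟩ | ⟨-, r2, -⟩ | ⟨-, r2, -⟩
        · rw [r1, r2]
        · linarith
        · linarith
      · linarith
      · linarith
    · have o1 : (x : K) ≤ 1 / 4 ∨ 3 / 4 ≤ (x : K) := by
        rcases le_or_gt (x : K) (1 / 4) with q | q
        · exact Or.inl q
        · exact Or.inr (not_lt.1 fun q' => hm ⟨q, q'⟩)
      have o2 : (y : K) ≤ 1 / 4 ∨ 3 / 4 ≤ (y : K) := by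
        rcases o1 with q | q
        · left
          rcases c1 with c1 | c1 <;> linarith
        · right
          rcases c2 with c2 | c2 <;> linarith
      rcases hout with hout | hout
      · have e1 := hout x o1
        have e2 := hout y o2
        rcases h1 with ⟨r1, s1⟩ | ⟨r1, s1, t1⟩ | ⟨r1, s1, t1⟩ <;>
          rcases h2 with ⟨r2, s2⟩ | ⟨r2, s2, t2⟩ | ⟨r2, s2, t2⟩ <;>
          first
          | exact r1.trans r2.symm
          | (exfalso
             rcases c4 with c4 | c4 <;> rcases c6 with c6 | c6 <;> linarith [hvx.1, hvx.2, hvy.1, hvy.2])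
      · have e1 := hout x o1
        have e2 := hout y o2
        rcases h1 with ⟨r1, s1⟩ | ⟨r1, s1, t1⟩ | ⟨r1, s1, t1⟩ <;>
          rcases h2 with ⟨r2, s2⟩ | ⟨r2, s2, t2⟩ | ⟨r2, s2, t2⟩ <;>
          first
          | exact r1.trans r2.symm
          | (exfalso
             rcases c3 with c3 | c3 <;> rcases c5 with c5 | c5 <;> linarith [hvx.1, hvx.2, hvy.1, hvy.2])
  rw [key] at hk
  rw [hk, hl]
  rw [← h3]
  congr 1
  ring

end action

end Pool.Agent.IEF
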